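import Pool.Agent.H895R3.NK.E4

/-!
# Sums over primes with the phase `ξ / n`: savings of any power of the logarithm
-/

set_option autoImplicit false

namespace Pool.Agent.Y371.NK
open Finset
open Pool.Agent.H469R2.NK (e)
open Pool.Agent.H895R3.NK (prime_exp_bound ev_log')

theorem prime_exp_log (d K : ℕ) : ∃ N₀ : ℕ, ∀ N : ℕ, N₀ ≤ N → ∀ N' : ℕ, N ≤ N' →
    N' ≤ 2 * N → ∀ ξ : ℝ, (N : ℝ) * (Real.log N) ^ (2 * K + 14) ≤ ξ → ξ ≤ (N : ℝ) ^ d →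
    ‖∑ n ∈ Ioc N N', ((ArithmeticFunction.vonMangoldt n : ℝ) : ℂ) * e (ξ / (n : ℝ))‖ ≤
      N / (Real.log N) ^ K := by
  obtain ⟨η, hη0, hη1, C, hC, h⟩ := prime_exp_bound d
  obtain ⟨N₁, hN₁⟩ := ev_log' (η / 4) (by positivity) (2 * K + 13) (3888 * Real.sqrt C + 54 * C)
  refine ⟨N₁ + 10 ^ 4, fun N hN N' hNN' hN' ξ hξ1 hξ2 => ?_⟩
  obtain ⟨h12, hB, hl1, hLg, hpow⟩ := hN₁ N (by omega)
  have hNr : (12 : ℝ) ≤ N := by exact_mod_cast h12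
  have hN0 : (0 : ℝ) < N := by linarith
  obtain ⟨l, hl⟩ : ∃ l : ℝ, l = Real.log N := ⟨_, rfl⟩
  rw [← hl] at hB hl1 hLg hpow hξ1 ⊢
  have hl0 : 0 < l := by linarith
  have hξ0 : 0 < ξ := lt_of_lt_of_le (by positivity) hξ1
  refine (h N N' (by omega) hNN' hN' ξ hξ0 hξ2).trans ?_
  obtain ⟨Lg, hLgd⟩ : ∃ Lg : ℝ, Lg = 1 + Real.log (4 * N) := ⟨_, rfl⟩
  rw [← hLgd] at hLg ⊢
  have hLg1 : 1 ≤ Lg := by
    have := Real.log_nonneg (show (1 : ℝ) ≤ 4 * N by linarith)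
    linarith
  obtain ⟨Z, hZ⟩ : ∃ Z : ℝ, Z = l ^ (2 * K + 13) := ⟨_, rfl⟩
  obtain ⟨V, hV⟩ : ∃ V : ℝ, V = l ^ (K + 1) := ⟨_, rfl⟩
  have hZ0 : 0 < Z := by rw [hZ]; positivity
  have hV0 : 0 < V := by rw [hV]; positivity
  have hZ1 : l ^ (2 * K + 14) = Z * l := by rw [hZ, ← pow_succ]
  have hZV : (V * l ^ 5) ^ 2 ≤ Z := by
    have h1 : (V * l ^ 5) ^ 2 = l ^ (2 * K + 12) := by
      rw [hV]
      ring
    rw [h1, hZ]
    exact pow_le_pow_right₀ hl1 (by omega)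
  have hZV2 : V * l ^ 2 ≤ Z := by
    have h1 : V * l ^ 2 = l ^ (K + 3) := by
      rw [hV]
      ring
    rw [h1, hZ]
    exact pow_le_pow_right₀ hl1 (by omega)
  rw [hZ1] at hξ1
  rw [← hZ] at hpow
  obtain ⟨P, hP⟩ : ∃ P : ℝ, P = (N : ℝ) ^ (-(η / 4)) := ⟨_, rfl⟩
  rw [← hP]
  have hP0 : 0 < P := by rw [hP]; exact Real.rpow_pos_of_pos hN0 _
  have hPl : P ≤ 1 / Z := by
    rw [hP, Real.rpow_neg hN0.le, ← one_div]
    exact one_div_le_one_div_of_le hZ0 hpow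
  have hC0 : 0 < C := by linarith
  have e1 : (N : ℝ) ^ 3 * Lg / ξ ≤ 3 * (N : ℝ) ^ 2 / Z := by
    calc (N : ℝ) ^ 3 * Lg / ξ ≤ (N : ℝ) ^ 3 * (3 * l) / ((N : ℝ) * (Z * l)) := by gcongr
      _ = 3 * (N : ℝ) ^ 2 / Z := by field_simp
  have e2 : (N : ℝ) ^ 2 / ξ ≤ N / Z := by
    calc (N : ℝ) ^ 2 / ξ ≤ (N : ℝ) ^ 2 / ((N : ℝ) * (Z * l)) := by gcongr
      _ = N / (Z * l) := by field_simp
      _ ≤ N / Z := by
        apply div_le_div_of_nonneg_left hN0.le hZ0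
        nlinarith
  have e3 : (N : ℝ) ^ 2 * P ≤ (N : ℝ) ^ 2 / Z := by
    calc (N : ℝ) ^ 2 * P ≤ (N : ℝ) ^ 2 * (1 / Z) := by gcongr
      _ = _ := by ring
  have e4 : (N : ℝ) * P ≤ N / Z := by
    calc (N : ℝ) * P ≤ (N : ℝ) * (1 / Z) := by gcongr
      _ = _ := by ring
  have hsq : Real.sqrt (C * ((N : ℝ) ^ 2 * P + (N : ℝ) ^ 3 * Lg / ξ)) ≤
      2 * Real.sqrt C * N / (V * l ^ 5) := by
    rw [Real.sqrt_le_left (by positivity)]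
    have h13 : (1 : ℝ) / Z ≤ 1 / (V * l ^ 5) ^ 2 :=
      one_div_le_one_div_of_le (by positivity) hZV
    calc C * ((N : ℝ) ^ 2 * P + (N : ℝ) ^ 3 * Lg / ξ) ≤
        C * ((N : ℝ) ^ 2 / Z + 3 * (N : ℝ) ^ 2 / Z) := by gcongr
      _ = 4 * C * (N : ℝ) ^ 2 * (1 / Z) := by ring
      _ ≤ 4 * C * (N : ℝ) ^ 2 * (1 / (V * l ^ 5) ^ 2) := by gcongr
      _ = (2 * Real.sqrt C * N / (V * l ^ 5)) ^ 2 := by
        rw [div_pow, mul_pow (2 * Real.sqrt C) (N : ℝ), mul_pow 2 (Real.sqrt C), Real.sq_sqrt hC0.le]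
        ring
  have t1 : 8 * Lg ^ 5 * Real.sqrt (C * ((N : ℝ) ^ 2 * P + (N : ℝ) ^ 3 * Lg / ξ)) ≤
      3888 * Real.sqrt C * (N / V) := by
    calc _ ≤ 8 * (3 * l) ^ 5 * (2 * Real.sqrt C * N / (V * l ^ 5)) := by gcongr
      _ = _ := by field_simp; ring
  have t2 : 3 * Lg * (C * ((N : ℝ) ^ 2 / ξ + (N : ℝ) * P) * Lg) ≤ 54 * C * (N / V) := by
    calc _ ≤ 3 * (3 * l) * (C * (N / Z + N / Z) * (3 * l)) := by gcongr
      _ = 54 * C * (N * l ^ 2 / Z) := by field_simp; ring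
      _ ≤ 54 * C * (N / V) := by
        apply mul_le_mul_of_nonneg_left _ (by positivity)
        rw [div_le_div_iff₀ hZ0 hV0]
        calc (N : ℝ) * l ^ 2 * V = N * (V * l ^ 2) := by ring
          _ ≤ N * Z := by gcongr
  calc _ ≤ 3888 * Real.sqrt C * (N / V) + 54 * C * (N / V) := add_le_add t1 t2
    _ = (3888 * Real.sqrt C + 54 * C) * (N / V) := by ring
    _ ≤ l * (N / V) := by gcongr
    _ = N / l ^ K := by
      rw [hV, pow_succ]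
      field_simp

end Pool.Agent.Y371.NK
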