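import Pool.Agent.H469R2.NK.KL

/-!
# A one-sided Fejér kernel argument

If the weighted exponential sums `∑ L(m) e(h f(m))`, `1 ≤ h < H`, are small, then a positive proportion
of the weight lies on the `m` for which the fractional part of `f(m)` is smaller than `δ / 2`.
-/

set_option autoImplicit false

namespace Pool.Agent.Y371.NK
open Finset
open Pool.Agent.H469R2.NK (e norm_e e_add conj_e e_zero)

theorem e_eq (x : ℝ) : e x = Complex.exp (((2 * Real.pi * x : ℝ) : ℂ) * Complex.I) := rfl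

theorem e_int (n : ℤ) : e (n : ℝ) = 1 := by
  rw [e_eq]
  have h : (((2 * Real.pi * (n : ℝ) : ℝ) : ℂ) * Complex.I) = n * (2 * Real.pi * Complex.I) := by
    push_cast
    ring
  rw [h]
  exact Complex.exp_int_mul_two_pi_mul_I n

theorem e_fract (x y : ℝ) : e (x - y) = e (Int.fract x - y) := by
  have h : x - y = (⌊x⌋ : ℝ) + (Int.fract x - y) := by
    rw [Int.fract]
    ring
  rw [h, e_add, e_int, one_mul]

theorem norm_e_sub_one (w : ℝ) (h0 : 0 ≤ w) (h1 : w ≤ 1) : ‖e w - 1‖ = 2 * Real.sin (Real.pi * w) := by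
  have hs : 0 ≤ Real.sin (Real.pi * w) := by
    apply Real.sin_nonneg_of_nonneg_of_le_pi
    · positivity
    · nlinarith [Real.pi_pos]
  have h2 : ‖e w - 1‖ ^ 2 = (2 * Real.sin (Real.pi * w)) ^ 2 := by
    rw [← Complex.normSq_eq_norm_sq, Complex.normSq_apply, e_eq]
    have hre : (Complex.exp (((2 * Real.pi * w : ℝ) : ℂ) * Complex.I) - 1).re =
        Real.cos (2 * Real.pi * w) - 1 := by
      rw [Complex.sub_re, Complex.exp_ofReal_mul_I_re, Complex.one_re]
    have him : (Complex.exp (((2 * Real.pi * w : ℝ) : ℂ) * Complex.I) - 1).im =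
        Real.sin (2 * Real.pi * w) := by
      rw [Complex.sub_im, Complex.exp_ofReal_mul_I_im, Complex.one_im, sub_zero]
    rw [hre, him]
    have e1 : 2 * Real.pi * w = 2 * (Real.pi * w) := by ring
    have h3 := Real.cos_sq_add_sin_sq (2 * (Real.pi * w))
    have h4 := Real.cos_two_mul (Real.pi * w)
    have h5 := Real.sin_sq_add_cos_sq (Real.pi * w)
    rw [e1]
    nlinarith
  have h3 : 0 ≤ ‖e w - 1‖ := norm_nonneg _
  nlinarith [sq_nonneg (‖e w - 1‖ - 2 * Real.sin (Real.pi * w))]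

theorem norm_e_sub_one_ge (w δ : ℝ) (hδ : 0 < δ) (h0 : δ / 4 ≤ w) (h1 : w ≤ 1 - δ / 4) :
    δ ≤ ‖e w - 1‖ := by
  rw [norm_e_sub_one w (by linarith) (by linarith)]
  have hpi := Real.pi_pos
  rcases le_total w (1 / 2) with h | h
  · have h2 := Real.mul_le_sin (x := Real.pi * w) (by nlinarith) (by nlinarith)
    have h3 : 2 / Real.pi * (Real.pi * w) = 2 * w := by field_simp
    rw [h3] at h2
    linarith
  · have h2 := Real.mul_le_sin (x := Real.pi * (1 - w)) (by nlinarith) (by nlinarith)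
    have h3 : 2 / Real.pi * (Real.pi * (1 - w)) = 2 * (1 - w) := by field_simp
    have h4 : Real.sin (Real.pi * (1 - w)) = Real.sin (Real.pi * w) := by
      rw [show Real.pi * (1 - w) = Real.pi - Real.pi * w by ring, Real.sin_pi_sub]
    rw [h3, h4] at h2
    linarith

theorem geom_bound (w δ : ℝ) (hδ : 0 < δ) (H : ℕ) (h : δ ≤ ‖e w - 1‖) :
    ‖∑ h ∈ range H, e (h * w)‖ ^ 2 ≤ 4 / δ ^ 2 := by
  have h1 : (∑ h ∈ range H, e (h * w)) * (e w - 1) = e (H * w) - 1 := by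
    induction H with
    | zero => simp [e_zero]
    | succ H ih =>
      rw [sum_range_succ, add_mul, ih]
      have h2 : e (((H + 1 : ℕ) : ℝ) * w) = e (H * w) * e w := by
        rw [← e_add]
        congr 1
        push_cast
        ring
      rw [h2]
      ring
  have h2 : ‖∑ h ∈ range H, e (h * w)‖ * ‖e w - 1‖ ≤ 2 := by
    rw [← norm_mul, h1]
    calc ‖e (H * w) - 1‖ ≤ ‖e (H * w)‖ + ‖(1 : ℂ)‖ := norm_sub_le _ _
      _ = 2 := by rw [norm_e, norm_one]; norm_num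
  have h3 : ‖∑ h ∈ range H, e (h * w)‖ * δ ≤ 2 :=
    (mul_le_mul_of_nonneg_left h (norm_nonneg _)).trans h2
  rw [le_div_iff₀ (by positivity)]
  have h4 : 0 ≤ ‖∑ h ∈ range H, e (h * w)‖ * δ := by positivity
  calc ‖∑ h ∈ range H, e (h * w)‖ ^ 2 * δ ^ 2 = (‖∑ h ∈ range H, e (h * w)‖ * δ) ^ 2 := by ring
    _ ≤ 2 ^ 2 := by gcongr
    _ = 4 := by norm_num

theorem norm_sq_expand (w : ℝ) (H : ℕ) : ‖∑ h ∈ range H, e (h * w)‖ ^ 2 =
    ∑ h ∈ range H, ∑ h' ∈ range H, (e (((h : ℝ) - h') * w)).re := by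
  have h1 : ((‖∑ h ∈ range H, e (h * w)‖ ^ 2 : ℝ) : ℂ) =
      ∑ h ∈ range H, ∑ h' ∈ range H, e (((h : ℝ) - h') * w) := by
    rw [← Complex.normSq_eq_norm_sq, ← Complex.mul_conj, map_sum, sum_mul_sum]
    refine sum_congr rfl fun h _ => sum_congr rfl fun h' _ => ?_
    rw [conj_e, ← e_add]
    congr 1
    ring
  have h2 := congrArg Complex.re h1
  rw [Complex.ofReal_re] at h2
  rw [h2, Complex.re_sum]
  refine sum_congr rfl fun h _ => ?_
  rw [Complex.re_sum]

theorem core (S : Finset ℕ) (L : ℕ → ℝ) (hL : ∀ m, 0 ≤ L m) (f : ℕ → ℝ) (H : ℕ) (hH : 1 ≤ H)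
    (E : ℝ) (hE0 : 0 ≤ E)
    (hE : ∀ h : ℕ, 1 ≤ h → h < H → ‖∑ m ∈ S, (L m : ℂ) * e (h * f m)‖ ≤ E)
    (δ : ℝ) (hδ : 0 < δ) (hHδ : 8 ≤ H * δ ^ 2) :
    (∑ m ∈ S, L m) / (2 * H) - E ≤ ∑ m ∈ S.filter (fun m => Int.fract (f m) < δ / 2), L m := by
  have hHr : (1 : ℝ) ≤ H := by exact_mod_cast hH
  have hH0 : (0 : ℝ) < H := by linarith
  -- the exponential sums with shifts
  have hsh : ∀ c : ℝ, ‖∑ m ∈ S, (L m : ℂ) * e (c * (f m - δ / 4))‖ =
      ‖∑ m ∈ S, (L m : ℂ) * e (c * f m)‖ := by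
    intro c
    have h1 : ∑ m ∈ S, (L m : ℂ) * e (c * (f m - δ / 4)) =
        (∑ m ∈ S, (L m : ℂ) * e (c * f m)) * e (- (c * (δ / 4))) := by
      rw [sum_mul]
      refine sum_congr rfl fun m _ => ?_
      rw [mul_assoc, ← e_add]
      congr 2
      ring
    rw [h1, norm_mul, norm_e, mul_one]
  have hneg : ∀ c : ℝ, ‖∑ m ∈ S, (L m : ℂ) * e (-c * f m)‖ = ‖∑ m ∈ S, (L m : ℂ) * e (c * f m)‖ := by
    intro c
    rw [← Complex.norm_conj (∑ m ∈ S, (L m : ℂ) * e (c * f m)), map_sum]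
    congr 1
    refine sum_congr rfl fun m _ => ?_
    rw [map_mul, Complex.conj_ofReal, conj_e]
    congr 2
    ring
  have hterm : ∀ h ∈ range H, ∀ h' ∈ range H,
      (if h = h' then ∑ m ∈ S, L m else 0) - E ≤
        ∑ m ∈ S, L m * (e (((h : ℝ) - h') * (f m - δ / 4))).re := by
    intro h hh h' hh'
    rw [mem_range] at hh hh'
    have hre : ∑ m ∈ S, L m * (e (((h : ℝ) - h') * (f m - δ / 4))).re =
        (∑ m ∈ S, (L m : ℂ) * e (((h : ℝ) - h') * (f m - δ / 4))).re := by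
      rw [Complex.re_sum]
      refine sum_congr rfl fun m _ => ?_
      rw [Complex.re_ofReal_mul]
    split_ifs with heq
    · subst heq
      simp only [sub_self, zero_mul, e_zero, Complex.one_re, mul_one]
      linarith
    · rw [hre]
      have h1 := Complex.abs_re_le_norm (∑ m ∈ S, (L m : ℂ) * e (((h : ℝ) - h') * (f m - δ / 4)))
      rw [hsh] at h1
      have h2 : ‖∑ m ∈ S, (L m : ℂ) * e (((h : ℝ) - h') * f m)‖ ≤ E := by
        rcases lt_or_gt_of_ne heq with hlt | hgt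
        · have h3 := hE (h' - h) (by omega) (by omega)
          rw [← hneg] at h3
          have h4 : (-((h' - h : ℕ) : ℝ)) = (h : ℝ) - h' := by
            rw [Nat.cast_sub hlt.le]
            ring
          rw [h4] at h3
          exact h3
        · have h3 := hE (h - h') (by omega) (by omega)
          rw [Nat.cast_sub hgt.le] at h3
          exact h3
      have h3 := neg_abs_le (∑ m ∈ S, (L m : ℂ) * e (((h : ℝ) - h') * (f m - δ / 4))).re
      linarith
  -- lower bound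
  have hlow : H * (∑ m ∈ S, L m) - H ^ 2 * E ≤
      ∑ m ∈ S, L m * ‖∑ h ∈ range H, e (h * (f m - δ / 4))‖ ^ 2 := by
    have h1 : ∑ m ∈ S, L m * ‖∑ h ∈ range H, e (h * (f m - δ / 4))‖ ^ 2 =
        ∑ h ∈ range H, ∑ h' ∈ range H, ∑ m ∈ S, L m * (e (((h : ℝ) - h') * (f m - δ / 4))).re := by
      simp_rw [norm_sq_expand, mul_sum]
      rw [sum_comm]
      refine sum_congr rfl fun h _ => ?_
      rw [sum_comm]
    rw [h1]
    have h2 : ∑ h ∈ range H, ∑ h' ∈ range H, ((if h = h' then ∑ m ∈ S, L m else 0) - E) =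
        H * (∑ m ∈ S, L m) - H ^ 2 * E := by
      simp only [sum_sub_distrib, sum_const, card_range, nsmul_eq_mul]
      congr 1
      · have h3 : ∀ h ∈ range H, ∑ h' ∈ range H, (if h = h' then ∑ m ∈ S, L m else 0) =
            ∑ m ∈ S, L m := by
          intro h hh
          rw [sum_ite_eq, if_pos hh]
        rw [sum_congr rfl h3, sum_const, card_range, nsmul_eq_mul]
      · ring
    rw [← h2]
    exact sum_le_sum fun h hh => sum_le_sum fun h' hh' => hterm h hh h' hh'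
  -- upper bound
  have hup : ∑ m ∈ S, L m * ‖∑ h ∈ range H, e (h * (f m - δ / 4))‖ ^ 2 ≤
      4 / δ ^ 2 * (∑ m ∈ S, L m) +
        H ^ 2 * ∑ m ∈ S.filter (fun m => Int.fract (f m) < δ / 2), L m := by
    rw [mul_sum, mul_sum, sum_filter, ← sum_add_distrib]
    refine sum_le_sum fun m _ => ?_
    have hLm := hL m
    split_ifs with hm
    · have h1 : ‖∑ h ∈ range H, e (h * (f m - δ / 4))‖ ≤ H := by
        calc ‖∑ h ∈ range H, e (h * (f m - δ / 4))‖ ≤ ∑ h ∈ range H, ‖e (h * (f m - δ / 4))‖ :=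
              norm_sum_le _ _
          _ = H := by simp [norm_e]
      have h2 : ‖∑ h ∈ range H, e (h * (f m - δ / 4))‖ ^ 2 ≤ (H : ℝ) ^ 2 := by gcongr
      have h3 : 0 ≤ 4 / δ ^ 2 * L m := by positivity
      calc L m * ‖∑ h ∈ range H, e (h * (f m - δ / 4))‖ ^ 2 ≤ L m * (H : ℝ) ^ 2 :=
            mul_le_mul_of_nonneg_left h2 hLm
        _ ≤ 4 / δ ^ 2 * L m + H ^ 2 * L m := by linarith [mul_comm (L m) ((H : ℝ) ^ 2)]
    · rw [not_lt] at hm
      have h1 : δ ≤ ‖e (f m - δ / 4) - 1‖ := by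
        rw [e_fract]
        have h2 := Int.fract_lt_one (f m)
        by_cases h3 : Int.fract (f m) - δ / 4 ≤ 1 - δ / 4
        · exact norm_e_sub_one_ge _ δ hδ (by linarith) h3
        · exfalso
          linarith
      have h2 := geom_bound (f m - δ / 4) δ hδ H h1
      calc L m * ‖∑ h ∈ range H, e (h * (f m - δ / 4))‖ ^ 2 ≤ L m * (4 / δ ^ 2) :=
            mul_le_mul_of_nonneg_left h2 hLm
        _ = 4 / δ ^ 2 * L m + 0 := by ring
  have hδH : 4 / δ ^ 2 ≤ H / 2 := by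
    rw [div_le_div_iff₀ (by positivity) (by norm_num)]
    linarith
  have hS : 0 ≤ ∑ m ∈ S, L m := sum_nonneg fun m _ => hL m
  have h1 : H * (∑ m ∈ S, L m) - H ^ 2 * E ≤ H / 2 * (∑ m ∈ S, L m) +
        H ^ 2 * ∑ m ∈ S.filter (fun m => Int.fract (f m) < δ / 2), L m :=
    (hlow.trans hup).trans (by gcongr)
  have h2 : (∑ m ∈ S, L m) / (2 * H) - E = ((H : ℝ) / 2 * (∑ m ∈ S, L m) - H ^ 2 * E) / H ^ 2 := by
    field_simp
  rw [h2, div_le_iff₀ (by positivity)]
  linarith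

end Pool.Agent.Y371.NK
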