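import Pool.Agent.Y371.NK.Sq

/-!
# Primes dividing exactly one of `n` consecutive integers, to the first power: `m ≤ n ^ (4 - ε)`
-/

set_option autoImplicit false

namespace Pool.Agent.Y371.NK
open Finset
open Pool.Agent.H895R3.NK (ev_log')

/-- the range `n ^ (3 - ε / 4) ≤ m ≤ n ^ (4 - ε)` -/
theorem once_four (ε : ℝ) (hε : 0 < ε) (hε1 : ε ≤ 1) : ∃ n₀ : ℕ, ∀ n : ℕ, n₀ ≤ n → ∀ m : ℕ,
    (n : ℝ) ^ (3 - ε / 4) ≤ m → (m : ℝ) ≤ (n : ℝ) ^ (4 - ε) →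
    ∃ S : Finset ℕ, (n : ℝ) / (200 * Real.log n) ≤ S.card ∧
      ∀ p ∈ S, p.Prime ∧ n < p ∧ ∃ m' : ℕ, m < m' ∧ m' ≤ m + n ∧ p ∣ m' ∧ ¬ p ^ 2 ∣ m' := by
  classical
  obtain ⟨N₁, hN₁⟩ := main_count 0 4
  obtain ⟨N₂, hN₂⟩ := ev_log' (ε / 8) (by positivity) 2 (10 ^ 6)
  refine ⟨N₁ + N₂ + 2, fun n hn m hnm hm => ?_⟩
  obtain ⟨-, hB, hl1, -, hpow⟩ := hN₂ n (by omega)
  have hnr : (2 : ℝ) ≤ n := by exact_mod_cast (by omega : 2 ≤ n)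
  have hn0 : (0 : ℝ) < n := by linarith
  have hn1 : (1 : ℝ) ≤ n := by linarith
  obtain ⟨l, hl⟩ : ∃ l : ℝ, l = Real.log n := ⟨_, rfl⟩
  rw [← hl] at hB hl1 hpow ⊢
  have hl0 : 0 < l := by linarith
  -- y = n ^ (ε / 8)
  obtain ⟨y, hy⟩ : ∃ y : ℝ, y = (n : ℝ) ^ (ε / 8) := ⟨_, rfl⟩
  rw [← hy] at hpow
  have hy0 : 0 < y := by rw [hy]; exact Real.rpow_pos_of_pos hn0 _
  have hly : 10 ^ 6 * l ≤ y := by nlinarith
  have hy1 : 10 ^ 6 ≤ y := by nlinarith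
  have hy8 : y ^ 8 = (n : ℝ) ^ ε := by
    rw [hy, ← Real.rpow_natCast, ← Real.rpow_mul hn0.le]
    congr 1
    push_cast
    ring
  have hy2 : y ^ 2 = (n : ℝ) ^ (ε / 4) := by
    rw [hy, ← Real.rpow_natCast, ← Real.rpow_mul hn0.le]
    congr 1
    push_cast
    ring
  have hyn : y ^ 8 ≤ n := by
    rw [hy8]
    calc (n : ℝ) ^ ε ≤ (n : ℝ) ^ (1 : ℝ) := Real.rpow_le_rpow_of_exponent_le hn1 hε1
      _ = n := Real.rpow_one _
  have hmy : (m : ℝ) * y ^ 8 ≤ (n : ℝ) ^ 4 := by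
    calc (m : ℝ) * y ^ 8 ≤ (n : ℝ) ^ (4 - ε) * y ^ 8 := by gcongr
      _ = (n : ℝ) ^ (4 : ℝ) := by rw [hy8, ← Real.rpow_add hn0, sub_add_cancel]
      _ = (n : ℝ) ^ 4 := by exact_mod_cast Real.rpow_natCast (n : ℝ) 4
  have hmlow : (n : ℝ) ^ 3 ≤ m * y ^ 2 := by
    calc (n : ℝ) ^ 3 = (n : ℝ) ^ (3 : ℝ) := by exact_mod_cast (Real.rpow_natCast (n : ℝ) 3).symm
      _ = (n : ℝ) ^ (3 - ε / 4) * y ^ 2 := by rw [hy2, ← Real.rpow_add hn0, sub_add_cancel]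
      _ ≤ m * y ^ 2 := by gcongr
  have hm0 : (0 : ℝ) < m := lt_of_lt_of_le (Real.rpow_pos_of_pos hn0 _) hnm
  have hy28 : y ^ 2 ≤ y ^ 8 := pow_le_pow_right₀ (by linarith) (by norm_num)
  have hnmr : (n : ℝ) ≤ m := by
    have h1 : (n : ℝ) ^ 3 ≤ m * n := hmlow.trans (by gcongr; linarith)
    have h2 : (n : ℝ) * n ^ 2 ≤ n * m := by nlinarith
    have h3 := le_of_mul_le_mul_left h2 hn0
    nlinarith
  have hnm' : n ≤ m := by exact_mod_cast hnmr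
  have hm4 : m + n ≤ n ^ 4 := by
    have h0 : (2 : ℝ) ≤ y ^ 8 := by nlinarith [pow_le_pow_right₀ (show (1 : ℝ) ≤ y by linarith) (show 1 ≤ 8 by norm_num)]
    have h1 : (m : ℝ) + n ≤ (n : ℝ) ^ 4 := by nlinarith
    exact_mod_cast h1
  have h1 := hN₁ n (by omega) m (m + n) hnm' hm4 (by
    push_cast
    rw [pow_zero, div_one]
    linarith) (by push_cast; linarith)
  rw [← hl] at h1
  have h2 : (((m + n : ℕ) : ℝ) - m) = n := by push_cast; ring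
  rw [h2] at h1
  obtain ⟨B, hBd⟩ : ∃ B : Finset ℕ, B = (W n m (m + n)).filter
    (fun p => ∃ t : ℕ, m < p ^ 2 * t ∧ p ^ 2 * t ≤ m + n) := ⟨_, rfl⟩
  obtain ⟨G, hGd⟩ : ∃ G : Finset ℕ, G = (W n m (m + n)).filter
    (fun p => ¬ ∃ t : ℕ, m < p ^ 2 * t ∧ p ^ 2 * t ≤ m + n) := ⟨_, rfl⟩
  -- parameters
  obtain ⟨H, hH⟩ : ∃ H : ℕ, H = ⌊y ^ 2⌋₊ := ⟨_, rfl⟩
  obtain ⟨r, hrd⟩ : ∃ r : ℕ, r = ⌈5 * y⌉₊ := ⟨_, rfl⟩
  have hHle : (H : ℝ) ≤ y ^ 2 := by rw [hH]; exact Nat.floor_le (by positivity)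
  have hHge : y ^ 2 - 1 ≤ (H : ℝ) := by
    have := Nat.lt_floor_add_one (y ^ 2)
    rw [← hH] at this
    linarith
  have hrge : 5 * y ≤ (r : ℝ) := by rw [hrd]; exact Nat.le_ceil _
  have hrle : (r : ℝ) ≤ 5 * y + 1 := by
    rw [hrd]; exact (Nat.ceil_lt_add_one (by positivity)).le
  have hH1 : 1 ≤ H := by
    have h3 : (1 : ℝ) ≤ H := by nlinarith
    exact_mod_cast h3
  have hcount := sq_count n m H r (by omega) hH1 B (by
      intro x hx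
      rw [hBd, mem_filter, mem_W] at hx
      exact ⟨hx.1.1, hx.2⟩) (by
      have h3 : 3 * (m : ℝ) * H ^ 3 / n ^ 4 ≤ 3 / y ^ 2 := by
        rw [div_le_div_iff₀ (by positivity) (by positivity)]
        have h4 : (H : ℝ) ^ 3 ≤ (y ^ 2) ^ 3 := by gcongr
        have h5 : 3 * (m : ℝ) * H ^ 3 * y ^ 2 ≤ 3 * m * (y ^ 2) ^ 3 * y ^ 2 := by gcongr
        have h6 : 3 * (m : ℝ) * (y ^ 2) ^ 3 * y ^ 2 = 3 * (m * y ^ 8) := by ring
        linarith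
      have h4 : (H : ℝ) / n ≤ 1 / y ^ 2 := by
        rw [div_le_div_iff₀ hn0 (by positivity)]
        have h5 : (H : ℝ) * y ^ 2 ≤ y ^ 2 * y ^ 2 := by gcongr
        have h6 : y ^ 2 * y ^ 2 ≤ y ^ 8 := by
          rw [← pow_add]
          exact pow_le_pow_right₀ (by linarith) (by norm_num)
        linarith
      have h5 : 3 / y ^ 2 + 1 / y ^ 2 = 4 / y ^ 2 := by ring
      have h6 : 4 / y ^ 2 < 1 := by
        rw [div_lt_one (by positivity)]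
        nlinarith
      linarith) (by
      have h3 : (5 * y) * (5 * y) * (3 * m) ≤ (r : ℝ) * r * (3 * m) := by gcongr
      have h4 : (5 * y) * (5 * y) * (3 * (m : ℝ)) = 75 * (m * y ^ 2) := by ring
      have h5 : 0 < (n : ℝ) ^ 3 := by positivity
      linarith)
  have h3 : (B.card : ℝ) ≤ n / (4800 * l) := by
    have h4 : (B.card : ℝ) ≤ 2 * r * ((n / H : ℕ) + 2) := by exact_mod_cast hcount
    have h5 : ((n / H : ℕ) : ℝ) ≤ (n : ℝ) / H := Nat.cast_div_le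
    have h6 : (n : ℝ) / H ≤ 2 * n / y ^ 2 := by
      rw [div_le_div_iff₀ (by exact_mod_cast hH1) (by positivity)]
      have h7 : y ^ 2 ≤ 2 * H := by nlinarith
      nlinarith
    have h7 : (2 : ℝ) ≤ 2 * n / y ^ 2 := by
      rw [le_div_iff₀ (by positivity)]
      nlinarith
    have h8 : (r : ℝ) ≤ 6 * y := by linarith
    calc (B.card : ℝ) ≤ 2 * r * ((n / H : ℕ) + 2) := h4
      _ ≤ 2 * (6 * y) * (2 * n / y ^ 2 + 2 * n / y ^ 2) := by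
        gcongr
        exact h5.trans h6
      _ = 48 * n / y := by field_simp; ring
      _ ≤ n / (4800 * l) := by
        rw [div_le_div_iff₀ hy0 (by positivity)]
        nlinarith
  have hsplit := card_filter_add_card_filter_not (s := W n m (m + n))
    (fun p => ∃ t : ℕ, m < p ^ 2 * t ∧ p ^ 2 * t ≤ m + n)
  rw [← hBd, ← hGd] at hsplit
  have hsplit' : (B.card : ℝ) + (G.card : ℝ) = (W n m (m + n)).card := by exact_mod_cast hsplit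
  have h5 : (n : ℝ) / (192 * l) - n / (4800 * l) = n / (200 * l) := by
    field_simp
    norm_num
  refine ⟨G, by linarith, fun p hp => ?_⟩
  rw [hGd, mem_filter, mem_W] at hp
  obtain ⟨⟨⟨h6, h7⟩, h8, m', h9, h10, h11⟩, h12⟩ := hp
  refine ⟨h8, h6, m', h9, h10, h11, fun h13 => h12 ?_⟩
  obtain ⟨t, ht⟩ := h13
  exact ⟨t, by rw [← ht]; exact h9, by rw [← ht]; exact h10⟩

/-- the range `n ≤ m ≤ n ^ (4 - ε)` -/
theorem once_upto_four (ε : ℝ) (hε : 0 < ε) : ∃ n₀ : ℕ, ∀ n : ℕ, n₀ ≤ n → ∀ m : ℕ, n ≤ m →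
    (m : ℝ) ≤ (n : ℝ) ^ (4 - ε) → ∃ S : Finset ℕ, (n : ℝ) / (200 * Real.log n) ≤ S.card ∧
      ∀ p ∈ S, p.Prime ∧ n < p ∧ ∃ m' : ℕ, m < m' ∧ m' ≤ m + n ∧ p ∣ m' ∧ ¬ p ^ 2 ∣ m' := by
  obtain ⟨δ, hδ⟩ : ∃ δ : ℝ, δ = min ε 1 := ⟨_, rfl⟩
  have hδ0 : 0 < δ := by rw [hδ]; exact lt_min hε one_pos
  have hδ1 : δ ≤ 1 := by rw [hδ]; exact min_le_right _ _
  have hδε : δ ≤ ε := by rw [hδ]; exact min_le_left _ _
  obtain ⟨N₁, h₁⟩ := once_many (δ / 4) (by positivity)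
  obtain ⟨N₂, h₂⟩ := once_four δ hδ0 hδ1
  refine ⟨N₁ + N₂ + 1, fun n hn m hnm hm => ?_⟩
  have hn1 : (1 : ℝ) ≤ n := by exact_mod_cast (by omega : 1 ≤ n)
  rcases le_total (m : ℝ) ((n : ℝ) ^ (3 - δ / 4)) with h | h
  · exact h₁ n (by omega) m hnm h
  · refine h₂ n (by omega) m h (hm.trans ?_)
    exact Real.rpow_le_rpow_of_exponent_le hn1 (by linarith)

end Pool.Agent.Y371.NK
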