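import Pool.Agent.Y371.NK.Fej

/-!
# A trigonometric minorant

If the weighted exponential sums `∑ L(m) e(h f(m))` are small for `1 ≤ h ≤ 10 / δ`, then the `m` for
which the fractional part of `f(m)` is smaller than `δ / 2` carry at least `δ / 24` of the weight.
-/

set_option autoImplicit false

namespace Pool.Agent.Y371.NK
open Finset
open Pool.Agent.H469R2.NK (e norm_e e_add conj_e e_zero)

/-- triangular weights -/
noncomputable def tw (M h : ℕ) : ℝ := min (h : ℝ) (2 * M - h)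

theorem tw_nonneg {M h : ℕ} (hh : h ≤ 2 * M) : 0 ≤ tw M h := by
  unfold tw
  have h1 : (h : ℝ) ≤ 2 * M := by exact_mod_cast hh
  exact le_min (Nat.cast_nonneg _) (by linarith)

theorem tw_left {M h : ℕ} (hh : h ≤ M) : tw M h = h := by
  unfold tw
  have h1 : (h : ℝ) ≤ M := by exact_mod_cast hh
  rw [min_eq_left]
  linarith

theorem tw_right {M h : ℕ} (hh : M ≤ h) : tw M h = 2 * M - h := by
  unfold tw
  have h1 : (M : ℝ) ≤ h := by exact_mod_cast hh
  rw [min_eq_right]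
  linarith

theorem tw_end (M : ℕ) : tw M (2 * M) = 0 := by
  rw [tw_right (by omega)]
  push_cast
  ring

theorem tw_zero (M : ℕ) : tw M 0 = 0 := by
  rw [tw_left (by omega)]
  simp

theorem sum_tw (M : ℕ) : ∑ h ∈ range (2 * M), tw M h = (M : ℝ) ^ 2 := by
  rw [two_mul, sum_range_add]
  have h1 : ∀ n : ℕ, n ≤ M → ∑ h ∈ range n, tw M h = (n : ℝ) * (n - 1) / 2 := by
    intro n
    induction n with
    | zero => intro _; simp
    | succ n ih =>
      intro hn
      rw [sum_range_succ, ih (by omega), tw_left (by omega)]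
      push_cast
      ring
  have h2 : ∀ n : ℕ, ∑ x ∈ range n, tw M (M + x) = (n : ℝ) * M - n * (n - 1) / 2 := by
    intro n
    induction n with
    | zero => simp
    | succ n ih =>
      rw [sum_range_succ, ih, tw_right (by omega)]
      push_cast
      ring
  rw [h1 M le_rfl, h2 M]
  ring

theorem sum_tw_sq (M : ℕ) : ∑ h ∈ range (2 * M), tw M h ^ 2 = (M : ℝ) * (2 * M ^ 2 + 1) / 3 := by
  rw [two_mul, sum_range_add]
  have h1 : ∀ n : ℕ, n ≤ M → ∑ h ∈ range n, tw M h ^ 2 = (n : ℝ) * (n - 1) * (2 * n - 1) / 6 := by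
    intro n
    induction n with
    | zero => intro _; simp
    | succ n ih =>
      intro hn
      rw [sum_range_succ, ih (by omega), tw_left (by omega)]
      push_cast
      ring
  have h2 : ∀ n : ℕ, ∑ x ∈ range n, tw M (M + x) ^ 2 =
      (n : ℝ) * M ^ 2 - M * (n * (n - 1)) + n * (n - 1) * (2 * n - 1) / 6 := by
    intro n
    induction n with
    | zero => simp
    | succ n ih =>
      rw [sum_range_succ, ih, tw_right (by omega)]
      push_cast
      ring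
  rw [h1 M le_rfl, h2 M]
  ring

theorem sum_tw_shift (M : ℕ) : ∑ h ∈ range (2 * M), tw M h * tw M (h + 1) =
    (∑ h ∈ range (2 * M), tw M h ^ 2) - M := by
  have h1 : ∀ h : ℕ, tw M h * tw M (h + 1) =
      tw M h ^ 2 + (tw M (h + 1) ^ 2 - tw M h ^ 2) / 2 - 1 / 2 := by
    intro h
    have h2 : (tw M (h + 1) - tw M h) ^ 2 = 1 := by
      rcases Nat.lt_or_ge h M with h3 | h3
      · rw [tw_left (by omega), tw_left (by omega)]
        push_cast
        ring
      · rw [tw_right (by omega), tw_right (by omega)]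
        push_cast
        ring
    nlinarith
  rw [sum_congr rfl fun h _ => h1 h, sum_sub_distrib, sum_add_distrib, ← sum_div,
    sum_range_sub (fun h => tw M h ^ 2), tw_end, tw_zero, sum_const, card_range, nsmul_eq_mul]
  push_cast
  ring

theorem e_re' (x : ℝ) : (e x).re = Real.cos (2 * Real.pi * x) := by
  rw [e_eq, Complex.exp_ofReal_mul_I_re]

theorem norm_sq_expand' (w : ℝ) (a : ℕ → ℝ) (s : Finset ℕ) :
    ‖∑ h ∈ s, (a h : ℂ) * e (h * w)‖ ^ 2 =
      ∑ h ∈ s, ∑ h' ∈ s, a h * a h' * (e (((h : ℝ) - h') * w)).re := by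
  have h1 : ((‖∑ h ∈ s, (a h : ℂ) * e (h * w)‖ ^ 2 : ℝ) : ℂ) =
      ∑ h ∈ s, ∑ h' ∈ s, ((a h * a h' : ℝ) : ℂ) * e (((h : ℝ) - h') * w) := by
    rw [← Complex.normSq_eq_norm_sq, ← Complex.mul_conj, map_sum, sum_mul_sum]
    refine sum_congr rfl fun h _ => sum_congr rfl fun h' _ => ?_
    rw [map_mul, conj_e, Complex.conj_ofReal]
    have h2 : e (((h : ℝ) - h') * w) = e (h * w) * e (-(h' * w)) := by
      rw [← e_add]
      congr 1
      ring
    rw [h2]
    push_cast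
    ring
  have h2 := congrArg Complex.re h1
  rw [Complex.ofReal_re] at h2
  rw [h2, Complex.re_sum]
  refine sum_congr rfl fun h _ => ?_
  rw [Complex.re_sum]
  refine sum_congr rfl fun h' _ => ?_
  rw [Complex.re_ofReal_mul]

theorem cos_mul_re (x w : ℝ) : 2 * Real.cos (2 * Real.pi * w) * (e (x * w)).re =
    (e ((x + 1) * w)).re + (e ((x - 1) * w)).re := by
  rw [e_re', e_re', e_re']
  have h1 : 2 * Real.pi * ((x + 1) * w) = 2 * Real.pi * (x * w) + 2 * Real.pi * w := by ring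
  have h2 : 2 * Real.pi * ((x - 1) * w) = 2 * Real.pi * (x * w) - 2 * Real.pi * w := by ring
  rw [h1, h2, Real.cos_add, Real.cos_sub]
  ring

theorem jac (S : Finset ℕ) (L : ℕ → ℝ) (hL : ∀ m, 0 ≤ L m) (y : ℕ → ℝ) (M : ℕ)
    (E : ℝ)
    (hR : ∀ n : ℤ, |n| ≤ 2 * M →
      |(∑ m ∈ S, L m * (e (n * y m)).re) - (if n = 0 then ∑ m ∈ S, L m else 0)| ≤ E)
    (c : ℝ) (hc1 : c ≤ 1) (hc2 : -1 ≤ c) (P : ℕ → Prop) [DecidablePred P]
    (hP : ∀ m ∈ S, ¬ P m → Real.cos (2 * Real.pi * y m) ≤ c) :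
    (∑ m ∈ S, L m) * (2 * (1 - c) * (M * (2 * M ^ 2 + 1) / 3) - 2 * M) - 4 * M ^ 4 * E ≤
      2 * (1 - c) * M ^ 4 * ∑ m ∈ S.filter P, L m := by
  obtain ⟨a, ha⟩ : ∃ a : ℕ → ℝ, a = tw M := ⟨_, rfl⟩
  obtain ⟨I, hI⟩ : ∃ I : Finset ℕ, I = range (2 * M) := ⟨_, rfl⟩
  obtain ⟨Q, hQ⟩ : ∃ Q : ℝ, Q = ∑ m ∈ S, L m := ⟨_, rfl⟩
  have ha0 : ∀ h ∈ I, 0 ≤ a h := by
    intro h hh
    rw [hI, mem_range] at hh
    rw [ha]
    exact tw_nonneg (by omega)
  have hs1 : ∑ h ∈ I, a h = (M : ℝ) ^ 2 := by rw [hI, ha]; exact sum_tw M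
  have hs2 : ∑ h ∈ I, a h ^ 2 = (M : ℝ) * (2 * M ^ 2 + 1) / 3 := by rw [hI, ha]; exact sum_tw_sq M
  have hs3 : ∑ h ∈ I, a h * a (h + 1) = (M : ℝ) * (2 * M ^ 2 + 1) / 3 - M := by
    rw [← hs2, hI, ha]
    exact sum_tw_shift M
  -- the polynomial
  obtain ⟨T, hT⟩ : ∃ T : ℕ → ℝ, T = fun m => 2 * (Real.cos (2 * Real.pi * y m) - c) *
    ‖∑ h ∈ I, (a h : ℂ) * e (h * y m)‖ ^ 2 := ⟨_, rfl⟩
  have hTexp : ∀ m, T m = ∑ h ∈ I, ∑ h' ∈ I, a h * a h' *
      ((e (((h : ℝ) - h' + 1) * y m)).re + (e (((h : ℝ) - h' - 1) * y m)).re -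
        2 * c * (e (((h : ℝ) - h') * y m)).re) := by
    intro m
    rw [hT]
    simp only
    rw [norm_sq_expand', mul_sum]
    refine sum_congr rfl fun h _ => ?_
    rw [mul_sum]
    refine sum_congr rfl fun h' _ => ?_
    rw [← cos_mul_re]
    ring
  -- upper bound
  have hup : ∑ m ∈ S, L m * T m ≤ 2 * (1 - c) * M ^ 4 * ∑ m ∈ S.filter P, L m := by
    rw [mul_sum, sum_filter]
    refine sum_le_sum fun m hm => ?_
    have hLm := hL m
    have hN0 : 0 ≤ ‖∑ h ∈ I, (a h : ℂ) * e (h * y m)‖ ^ 2 := by positivity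
    have hN1 : ‖∑ h ∈ I, (a h : ℂ) * e (h * y m)‖ ^ 2 ≤ (M : ℝ) ^ 4 := by
      have h1 : ‖∑ h ∈ I, (a h : ℂ) * e (h * y m)‖ ≤ (M : ℝ) ^ 2 := by
        rw [← hs1]
        refine (norm_sum_le _ _).trans (sum_le_sum fun h hh => ?_)
        rw [norm_mul, norm_e, mul_one, Complex.norm_real, Real.norm_of_nonneg (ha0 h hh)]
      calc ‖∑ h ∈ I, (a h : ℂ) * e (h * y m)‖ ^ 2 ≤ ((M : ℝ) ^ 2) ^ 2 := by gcongr
        _ = (M : ℝ) ^ 4 := by ring
    have hcos := Real.cos_le_one (2 * Real.pi * y m)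
    split_ifs with hPm
    · have h1 : T m ≤ 2 * (1 - c) * M ^ 4 := by
        rw [hT]
        simp only
        rcases le_total (Real.cos (2 * Real.pi * y m)) c with h2 | h2
        · have h3 : 2 * (Real.cos (2 * Real.pi * y m) - c) *
              ‖∑ h ∈ I, (a h : ℂ) * e (h * y m)‖ ^ 2 ≤ 0 :=
            mul_nonpos_of_nonpos_of_nonneg (by linarith) hN0
          have h4 : 0 ≤ 2 * (1 - c) * (M : ℝ) ^ 4 := mul_nonneg (by linarith) (by positivity)
          linarith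
        · exact mul_le_mul (by linarith) hN1 hN0 (by linarith)
      calc L m * T m ≤ L m * (2 * (1 - c) * M ^ 4) := mul_le_mul_of_nonneg_left h1 hLm
        _ = 2 * (1 - c) * M ^ 4 * L m := by ring
    · have h1 : T m ≤ 0 := by
        rw [hT]
        simp only
        exact mul_nonpos_of_nonpos_of_nonneg (by linarith [hP m hm hPm]) hN0
      exact mul_nonpos_of_nonneg_of_nonpos hLm h1
  -- lower bound
  have hexp : ∑ m ∈ S, L m * T m = ∑ h ∈ I, ∑ h' ∈ I, a h * a h' *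
      ((∑ m ∈ S, L m * (e (((h : ℝ) - h' + 1) * y m)).re) +
        (∑ m ∈ S, L m * (e (((h : ℝ) - h' - 1) * y m)).re) -
        2 * c * (∑ m ∈ S, L m * (e (((h : ℝ) - h') * y m)).re)) := by
    have h1 : ∀ m ∈ S, L m * T m = ∑ h ∈ I, ∑ h' ∈ I, L m * (a h * a h' *
      ((e (((h : ℝ) - h' + 1) * y m)).re + (e (((h : ℝ) - h' - 1) * y m)).re -
        2 * c * (e (((h : ℝ) - h') * y m)).re)) := by
      intro m _
      rw [hTexp m, mul_sum]
      refine sum_congr rfl fun h _ => ?_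
      rw [mul_sum]
    rw [sum_congr rfl h1, sum_comm]
    refine sum_congr rfl fun h _ => ?_
    rw [sum_comm]
    refine sum_congr rfl fun h' _ => ?_
    rw [← sum_add_distrib, mul_sum, ← sum_sub_distrib, mul_sum]
    refine sum_congr rfl fun m _ => ?_
    ring
  have hterm : ∀ h ∈ I, ∀ h' ∈ I, a h * a h' *
      ((((if h' = h + 1 then Q else 0) + (if h = h' + 1 then Q else 0)) -
        2 * c * (if h = h' then Q else 0)) - 4 * E) ≤ a h * a h' *
      ((∑ m ∈ S, L m * (e (((h : ℝ) - h' + 1) * y m)).re) +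
        (∑ m ∈ S, L m * (e (((h : ℝ) - h' - 1) * y m)).re) -
        2 * c * (∑ m ∈ S, L m * (e (((h : ℝ) - h') * y m)).re)) := by
    intro h hh h' hh'
    refine mul_le_mul_of_nonneg_left ?_ (mul_nonneg (ha0 h hh) (ha0 h' hh'))
    rw [hI, mem_range] at hh hh'
    have r1 := hR ((h : ℤ) - h' + 1) (by rw [abs_le]; constructor <;> omega)
    have r2 := hR ((h : ℤ) - h' - 1) (by rw [abs_le]; constructor <;> omega)
    have r3 := hR ((h : ℤ) - h') (by rw [abs_le]; constructor <;> omega)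
    rw [← hQ] at r1 r2 r3
    have i1 : (if (h : ℤ) - h' + 1 = 0 then Q else 0) = (if h' = h + 1 then Q else 0) := by
      by_cases h1 : h' = h + 1
      · rw [if_pos h1, if_pos (by omega)]
      · rw [if_neg h1, if_neg (by omega)]
    have i2 : (if (h : ℤ) - h' - 1 = 0 then Q else 0) = (if h = h' + 1 then Q else 0) := by
      by_cases h1 : h = h' + 1
      · rw [if_pos h1, if_pos (by omega)]
      · rw [if_neg h1, if_neg (by omega)]
    have i3 : (if (h : ℤ) - h' = 0 then Q else 0) = (if h = h' then Q else 0) := by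
      by_cases h1 : h = h'
      · rw [if_pos h1, if_pos (by omega)]
      · rw [if_neg h1, if_neg (by omega)]
    rw [i1] at r1
    rw [i2] at r2
    rw [i3] at r3
    push_cast at r1 r2 r3
    have b1 := (abs_le.1 r1).1
    have b2 := (abs_le.1 r2).1
    obtain ⟨X, hX⟩ : ∃ X : ℝ, X = (∑ m ∈ S, L m * (e (((h : ℝ) - h') * y m)).re) -
      (if h = h' then Q else 0) := ⟨_, rfl⟩
    rw [← hX] at r3
    have hX2 : (∑ m ∈ S, L m * (e (((h : ℝ) - h') * y m)).re) = X + (if h = h' then Q else 0) := by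
      rw [hX]; ring
    rw [hX2]
    have b3 : 2 * c * X ≤ 2 * E := by
      have h1 : |c * X| ≤ 1 * E := by
        rw [abs_mul]
        exact mul_le_mul (abs_le.2 ⟨hc2, hc1⟩) r3 (abs_nonneg _) (by norm_num)
      have h2 := (abs_le.1 h1).2
      linarith
    have b4 : 2 * c * (X + (if h = h' then Q else 0)) = 2 * c * X + 2 * c * (if h = h' then Q else 0) := by
      ring
    rw [b4]
    linarith
  have hsumE : ∑ h ∈ I, ∑ h' ∈ I, a h * a h' = (M : ℝ) ^ 4 := by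
    rw [← sum_mul_sum, hs1]
    ring
  have hD1 : ∑ h ∈ I, ∑ h' ∈ I, a h * a h' * (if h' = h + 1 then Q else 0) =
      ((M : ℝ) * (2 * M ^ 2 + 1) / 3 - M) * Q := by
    rw [← hs3, sum_mul]
    refine sum_congr rfl fun h hh => ?_
    have h1 : ∀ h' ∈ I, a h * a h' * (if h' = h + 1 then Q else 0) =
        if h' = h + 1 then a h * a h' * Q else 0 := by
      intro h' _
      split_ifs <;> simp
    rw [sum_congr rfl h1, sum_ite_eq']
    split_ifs with h2
    · rfl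
    · rw [hI, mem_range] at h2 hh
      have h3 : h + 1 = 2 * M := by omega
      rw [h3, ha, tw_end]
      ring
  have hD2 : ∑ h ∈ I, ∑ h' ∈ I, a h * a h' * (if h = h' + 1 then Q else 0) =
      ((M : ℝ) * (2 * M ^ 2 + 1) / 3 - M) * Q := by
    rw [sum_comm, ← hD1]
    refine sum_congr rfl fun h _ => sum_congr rfl fun h' _ => ?_
    rw [mul_comm (a h') (a h)]
  have hD0 : ∑ h ∈ I, ∑ h' ∈ I, a h * a h' * (if h = h' then Q else 0) =
      ((M : ℝ) * (2 * M ^ 2 + 1) / 3) * Q := by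
    rw [← hs2, sum_mul]
    refine sum_congr rfl fun h hh => ?_
    have h1 : ∀ h' ∈ I, a h * a h' * (if h = h' then Q else 0) =
        if h = h' then a h * a h' * Q else 0 := by
      intro h' _
      split_ifs <;> simp
    rw [sum_congr rfl h1, sum_ite_eq, if_pos hh]
    ring
  have hlow : Q * (2 * (1 - c) * (M * (2 * M ^ 2 + 1) / 3) - 2 * M) - 4 * M ^ 4 * E ≤
      ∑ m ∈ S, L m * T m := by
    rw [hexp]
    refine le_trans (le_of_eq ?_) (sum_le_sum fun h hh => sum_le_sum fun h' hh' => hterm h hh h' hh')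
    have h1 : ∑ h ∈ I, ∑ h' ∈ I, a h * a h' *
      ((((if h' = h + 1 then Q else 0) + (if h = h' + 1 then Q else 0)) -
        2 * c * (if h = h' then Q else 0)) - 4 * E) =
        (∑ h ∈ I, ∑ h' ∈ I, a h * a h' * (if h' = h + 1 then Q else 0)) +
        (∑ h ∈ I, ∑ h' ∈ I, a h * a h' * (if h = h' + 1 then Q else 0)) -
        2 * c * (∑ h ∈ I, ∑ h' ∈ I, a h * a h' * (if h = h' then Q else 0)) -
        4 * E * (∑ h ∈ I, ∑ h' ∈ I, a h * a h') := by
      simp only [mul_sum, ← sum_add_distrib, ← sum_sub_distrib]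
      refine sum_congr rfl fun h _ => sum_congr rfl fun h' _ => ?_
      ring
    rw [h1, hD1, hD2, hD0, hsumE]
    ring
  rw [← hQ]
  exact hlow.trans hup

theorem core' (S : Finset ℕ) (L : ℕ → ℝ) (hL : ∀ m, 0 ≤ L m) (f : ℕ → ℝ)
    (E : ℝ) (hE0 : 0 ≤ E) (δ : ℝ) (hδ : 0 < δ) (hδ1 : δ ≤ 1)
    (hE : ∀ h : ℕ, 1 ≤ h → (h : ℝ) * δ ≤ 10 → ‖∑ m ∈ S, (L m : ℂ) * e (h * f m)‖ ≤ E) :
    δ / 24 * (∑ m ∈ S, L m) - 4 * E / δ ^ 2 ≤
      ∑ m ∈ S.filter (fun m => Int.fract (f m) < δ / 2), L m := by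
  obtain ⟨M, hM⟩ : ∃ M : ℕ, M = ⌈4 / δ⌉₊ := ⟨_, rfl⟩
  have hM1 : 4 / δ ≤ M := by rw [hM]; exact Nat.le_ceil _
  have hM2 : (M : ℝ) < 4 / δ + 1 := by rw [hM]; exact Nat.ceil_lt_add_one (by positivity)
  have hM3 : 4 ≤ M * δ := by rwa [div_le_iff₀ hδ] at hM1
  have hM4 : (M : ℝ) * δ ≤ 5 := by
    have h1 : (M : ℝ) * δ ≤ (4 / δ + 1) * δ := by gcongr
    have h2 : (4 / δ + 1) * δ = 4 + δ := by field_simp
    linarith
  have hM0 : (0 : ℝ) < M := by
    by_contra h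
    have h1 : (M : ℝ) ≤ 0 := by linarith
    have h2 : (M : ℝ) * δ ≤ 0 := mul_nonpos_of_nonpos_of_nonneg h1 hδ.le
    linarith
  -- shifts
  have hsh : ∀ c : ℝ, ‖∑ m ∈ S, (L m : ℂ) * e (c * (f m - δ / 4))‖ =
      ‖∑ m ∈ S, (L m : ℂ) * e (c * f m)‖ := by
    intro c
    have h1 : ∑ m ∈ S, (L m : ℂ) * e (c * (f m - δ / 4)) =
        (∑ m ∈ S, (L m : ℂ) * e (c * f m)) * e (- (c * (δ / 4))) := by
      rw [sum_mul]
      refine sum_congr rfl fun m _ => ?_
      rw [mul_assoc, ← e_add]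
      congr 2
      ring
    rw [h1, norm_mul, norm_e, mul_one]
  have hneg : ∀ c : ℝ, ‖∑ m ∈ S, (L m : ℂ) * e (-c * f m)‖ = ‖∑ m ∈ S, (L m : ℂ) * e (c * f m)‖ := by
    intro c
    rw [← Complex.norm_conj (∑ m ∈ S, (L m : ℂ) * e (c * f m)), map_sum]
    congr 1
    refine sum_congr rfl fun m _ => ?_
    rw [map_mul, Complex.conj_ofReal, conj_e]
    congr 2
    ring
  have hnat : ∀ h : ℕ, 1 ≤ h → h ≤ 2 * M → ‖∑ m ∈ S, (L m : ℂ) * e (h * f m)‖ ≤ E := by
    intro h h1 h2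
    refine hE h h1 ?_
    have h3 : (h : ℝ) ≤ 2 * M := by exact_mod_cast h2
    calc (h : ℝ) * δ ≤ 2 * M * δ := by gcongr
      _ = 2 * (M * δ) := by ring
      _ ≤ 10 := by linarith
  have hR : ∀ n : ℤ, |n| ≤ 2 * M → |(∑ m ∈ S, L m * (e (n * (f m - δ / 4))).re) -
      (if n = 0 then ∑ m ∈ S, L m else 0)| ≤ E := by
    intro n hn
    split_ifs with hn0
    · subst hn0
      have h1 : ∑ m ∈ S, L m * (e (((0 : ℤ) : ℝ) * (f m - δ / 4))).re = ∑ m ∈ S, L m := by
        refine sum_congr rfl fun m _ => ?_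
        rw [Int.cast_zero, zero_mul, e_zero, Complex.one_re, mul_one]
      rw [h1, sub_self, abs_zero]
      exact hE0
    · rw [sub_zero]
      have hre : ∑ m ∈ S, L m * (e (n * (f m - δ / 4))).re =
          (∑ m ∈ S, (L m : ℂ) * e (n * (f m - δ / 4))).re := by
        rw [Complex.re_sum]
        refine sum_congr rfl fun m _ => ?_
        rw [Complex.re_ofReal_mul]
      rw [hre]
      refine (Complex.abs_re_le_norm _).trans ?_
      rw [hsh]
      have hn' := abs_le.1 hn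
      rcases lt_or_gt_of_ne hn0 with h | h
      · have h1 := hnat n.natAbs (by omega) (by omega)
        rw [← hneg] at h1
        have h2 : (-((n.natAbs : ℕ) : ℝ)) = (n : ℝ) := by
          have h3 : (-((n.natAbs : ℕ) : ℤ)) = n := by omega
          exact_mod_cast h3
        rw [h2] at h1
        exact h1
      · have h1 := hnat n.natAbs (by omega) (by omega)
        have h2 : ((n.natAbs : ℕ) : ℝ) = (n : ℝ) := by
          have h3 : ((n.natAbs : ℕ) : ℤ) = n := by omega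
          rw [← Int.cast_natCast, h3]
        rw [h2] at h1
        exact h1
  obtain ⟨c, hc⟩ : ∃ c : ℝ, c = Real.cos (2 * Real.pi * (δ / 4)) := ⟨_, rfl⟩
  have hpi := Real.pi_pos
  have hc1 : c ≤ 1 := by rw [hc]; exact Real.cos_le_one _
  have hc2 : -1 ≤ c := by rw [hc]; exact Real.neg_one_le_cos _
  have hq : δ ^ 2 / 2 ≤ 1 - c := by
    have h1 : c = 1 - 2 * Real.sin (Real.pi * (δ / 4)) ^ 2 := by
      rw [hc, show 2 * Real.pi * (δ / 4) = 2 * (Real.pi * (δ / 4)) by ring, Real.cos_two_mul]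
      have := Real.sin_sq_add_cos_sq (Real.pi * (δ / 4))
      linarith
    have h2 := Real.mul_le_sin (x := Real.pi * (δ / 4)) (by positivity) (by nlinarith)
    have h3 : 2 / Real.pi * (Real.pi * (δ / 4)) = δ / 2 := by field_simp; norm_num
    rw [h3] at h2
    have h4 : (δ / 2) ^ 2 ≤ Real.sin (Real.pi * (δ / 4)) ^ 2 := by gcongr
    rw [h1]
    nlinarith
  have hP : ∀ m ∈ S, ¬ (Int.fract (f m) < δ / 2) → Real.cos (2 * Real.pi * (f m - δ / 4)) ≤ c := by
    intro m _ hm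
    rw [not_lt] at hm
    have h1 := Int.fract_lt_one (f m)
    have h2 : Real.cos (2 * Real.pi * (f m - δ / 4)) =
        Real.cos (2 * Real.pi * (Int.fract (f m) - δ / 4)) := by
      rw [← e_re', ← e_re', e_fract]
    rw [h2, hc]
    rcases le_total (Int.fract (f m) - δ / 4) (1 / 2) with h3 | h3
    · apply Real.cos_le_cos_of_nonneg_of_le_pi
      · positivity
      · nlinarith
      · nlinarith
    · have h4 : Real.cos (2 * Real.pi * (Int.fract (f m) - δ / 4)) =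
          Real.cos (2 * Real.pi * (1 - (Int.fract (f m) - δ / 4))) := by
        rw [show 2 * Real.pi * (1 - (Int.fract (f m) - δ / 4)) =
          2 * Real.pi - 2 * Real.pi * (Int.fract (f m) - δ / 4) by ring, Real.cos_two_pi_sub]
      rw [h4]
      apply Real.cos_le_cos_of_nonneg_of_le_pi
      · positivity
      · nlinarith
      · nlinarith
  have hj := jac S L hL (fun m => f m - δ / 4) M E hR c hc1 hc2
    (fun m => Int.fract (f m) < δ / 2) hP
  obtain ⟨W, hW⟩ : ∃ W : ℝ, W = ∑ m ∈ S.filter (fun m => Int.fract (f m) < δ / 2), L m := ⟨_, rfl⟩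
  obtain ⟨Q, hQ⟩ : ∃ Q : ℝ, Q = ∑ m ∈ S, L m := ⟨_, rfl⟩
  have hQ0 : 0 ≤ Q := by rw [hQ]; exact sum_nonneg fun m _ => hL m
  rw [← hW, ← hQ] at hj
  rw [← hW, ← hQ]
  obtain ⟨q, hqd⟩ : ∃ q : ℝ, q = 1 - c := ⟨_, rfl⟩
  rw [← hqd] at hj hq
  have hq0 : 0 < q := lt_of_lt_of_le (by positivity) hq
  -- 2 q Σ a² - 2 M ≥ q (2/3) M³
  have hqM : 8 ≤ q * M ^ 2 := by
    have h1 : δ ^ 2 / 2 * M ^ 2 ≤ q * M ^ 2 := by gcongr
    have h2 : δ ^ 2 / 2 * (M : ℝ) ^ 2 = (M * δ) ^ 2 / 2 := by ring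
    have h3 : (4 : ℝ) ^ 2 ≤ (M * δ) ^ 2 := by gcongr
    linarith
  have h1 : Q * (q * (2 / 3) * M ^ 3) ≤ Q * (2 * q * (M * (2 * M ^ 2 + 1) / 3) - 2 * M) := by
    refine mul_le_mul_of_nonneg_left ?_ hQ0
    have h2 : 8 * (M : ℝ) ≤ q * M ^ 2 * M := by gcongr
    have h3 : 0 ≤ q * M := by positivity
    have h4 : 2 * q * ((M : ℝ) * (2 * M ^ 2 + 1) / 3) - 2 * M - q * (2 / 3) * M ^ 3 =
      2 / 3 * (q * M ^ 2 * M) + 2 / 3 * (q * M) - 2 * M := by ring
    linarith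
  have h2 : Q * (q * (2 / 3) * M ^ 3) - 4 * M ^ 4 * E ≤ 2 * q * M ^ 4 * W := by linarith
  have h3 : Q / (3 * M) - 2 * E / q ≤ W := by
    have h4 : Q / (3 * M) - 2 * E / q = (Q * (q * (2 / 3) * M ^ 3) - 4 * M ^ 4 * E) / (2 * q * M ^ 4) := by
      field_simp
      ring
    rw [h4, div_le_iff₀ (by positivity)]
    linarith
  have h4 : δ / 24 * Q ≤ Q / (3 * M) := by
    rw [le_div_iff₀ (by positivity)]
    have h5 : δ / 24 * Q * (3 * M) = (M * δ) / 8 * Q := by ring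
    rw [h5]
    have h6 : (M : ℝ) * δ / 8 ≤ 1 := by linarith
    calc (M : ℝ) * δ / 8 * Q ≤ 1 * Q := by gcongr
      _ = Q := one_mul _
  have h5 : 2 * E / q ≤ 4 * E / δ ^ 2 := by
    rw [div_le_div_iff₀ hq0 (by positivity)]
    have h6 : E * (δ ^ 2 / 2) ≤ E * q := by gcongr
    linarith
  linarith

end Pool.Agent.Y371.NK
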