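import Pool.Agent.Y371.NK.Small
import Pool.Agent.Y371.NK.Jac
import Pool.Agent.Y371.NK.ExpLog
import Pool.Agent.H442R2.EHI.PntErr

/-!
# Many primes of `(k, 2k)` have a multiple in a short interval
-/

set_option autoImplicit false

namespace Pool.Agent.Y371.NK
open Finset
open Pool.Agent.H469R2.NK (e)
open Pool.Agent.H895R3.NK (ev_log')

theorem psi_sub (a b : ℕ) (hab : a ≤ b) :
    Chebyshev.psi (b : ℝ) - Chebyshev.psi (a : ℝ) =
      ∑ m ∈ Ioc a b, ArithmeticFunction.vonMangoldt m := by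
  unfold Chebyshev.psi
  rw [Nat.floor_natCast, Nat.floor_natCast, ← Ioc_union_Ioc_eq_Ioc (Nat.zero_le a) hab, sum_union]
  · ring
  · rw [disjoint_left]
    intro x hx hx'
    rw [mem_Ioc] at hx hx'
    omega

/-- membership from a small fractional part -/
theorem mem_W_fract {k a b m : ℕ} {δ : ℝ} (hk : 2 ≤ k) (hp : m.Prime) (h1 : k < m)
    (h2 : m ≤ 2 * k) (hδ : δ * k ≤ (b : ℝ) - a) (h : Int.fract ((b : ℝ) / m) < δ / 2) :
    m ∈ W k a b := by
  have hm0 : (0 : ℝ) < m := by exact_mod_cast hp.pos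
  have h3 : Int.fract ((b : ℝ) / m) = ((b % m : ℕ) : ℝ) / m := Int.fract_div_natCast_eq_div_natCast_mod
  have hδ0 : 0 < δ := by
    have := Int.fract_nonneg ((b : ℝ) / m)
    linarith
  rw [h3, div_lt_iff₀ hm0] at h
  have h4 : (m : ℝ) ≤ 2 * k := by exact_mod_cast h2
  have h5 : δ / 2 * (m : ℝ) ≤ δ / 2 * (2 * k) := by gcongr
  have h6 : ((b % m : ℕ) : ℝ) + a < b := by
    have h7 : δ / 2 * (2 * (k : ℝ)) = δ * k := by ring
    linarith
  have h7 : b % m + a < b := by exact_mod_cast h6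
  have h8 := Nat.div_add_mod b m
  rw [mem_W]
  refine ⟨⟨h1, lt_two_mul hk hp h2⟩, hp, m * (b / m), by omega, by omega, dvd_mul_right _ _⟩

/-- the range `k (log k) ^ (6 A + 16) ≤ b ≤ k ^ d` -/
theorem large (A d : ℕ) : ∃ k₀ : ℕ, ∀ k : ℕ, k₀ ≤ k → ∀ a b : ℕ, ∀ δ : ℝ, 0 < δ → δ ≤ 1 →
    1 ≤ δ * (Real.log k) ^ A → (k : ℝ) * (Real.log k) ^ (6 * A + 16) ≤ b →
    (b : ℝ) ≤ (k : ℝ) ^ d → δ * k ≤ (b : ℝ) - a →
    δ * k / 96 ≤ ∑ p ∈ W k a b, Real.log (p : ℝ) := by
  classical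
  obtain ⟨N₁, hN₁⟩ := prime_exp_log (d + 1) (3 * A + 1)
  obtain ⟨C, hC, hth⟩ := Pool.Agent.H442R2.EHI.PntErrAux.thetaU 1
  obtain ⟨C₂, hC₂⟩ := Chebyshev.psi_sub_theta_le_mul_sqrt
  obtain ⟨N₂, hN₂⟩ := ev_log' (1 / 2) (by norm_num) (A + 1) (16 * C + 384 * |C₂| + 768)
  refine ⟨N₁ + N₂ + 2, fun k hk a b δ hδ hδ1 hδA hb1 hb2 hab => ?_⟩
  have hk2 : 2 ≤ k := by omega
  have hkr : (2 : ℝ) ≤ k := by exact_mod_cast hk2
  have hk0 : (0 : ℝ) < k := by linarith
  obtain ⟨-, hB, hl1, -, hpow⟩ := hN₂ k (by omega)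
  rw [← Real.sqrt_eq_rpow] at hpow
  obtain ⟨l, hl⟩ : ∃ l : ℝ, l = Real.log k := ⟨_, rfl⟩
  rw [← hl] at hB hl1 hpow hδA hb1
  have hl0 : 0 < l := by linarith
  have hC20 := abs_nonneg C₂
  have hb0 : (0 : ℝ) < b := lt_of_lt_of_le (by positivity) hb1
  obtain ⟨Z, hZ⟩ : ∃ Z : ℝ, Z = l ^ A := ⟨_, rfl⟩
  rw [← hZ] at hδA
  have hZ1 : 1 ≤ Z := by rw [hZ]; exact one_le_pow₀ hl1
  have hZ0 : 0 < Z := by linarith
  have hsk0 := Real.sqrt_nonneg (k : ℝ)
  have hskm : Real.sqrt k * Real.sqrt k = k := Real.mul_self_sqrt hk0.le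
  have hsk1 : 1 ≤ Real.sqrt k := by
    rw [Real.one_le_sqrt]
    linarith
  have hZl : Z * l ≤ Real.sqrt k := by
    rw [hZ, ← pow_succ]
    exact hpow
  have hZk : 10 * Z ≤ k := by
    have h1 : 10 * Z ≤ Z * l := by nlinarith
    have h2 : Real.sqrt k ≤ Real.sqrt k * Real.sqrt k := by nlinarith
    linarith
  have hδs : 384 * |C₂| ≤ δ * Real.sqrt k := by
    have h1 : δ * (Z * l) ≤ δ * Real.sqrt k := by gcongr
    have h2 : 1 * l ≤ δ * Z * l := by gcongr
    have h3 : δ * Z * l = δ * (Z * l) := by ring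
    have h4 : 0 < 16 * C := by positivity
    linarith
  have hl3 : l ^ (3 * A + 1) = Z ^ 3 * l := by
    rw [hZ, pow_succ, pow_mul']
  have hcore := core' (Ioc k (2 * k)) (fun m => ArithmeticFunction.vonMangoldt m)
    (fun m => ArithmeticFunction.vonMangoldt_nonneg) (fun m => (b : ℝ) / m)
    ((k : ℝ) / l ^ (3 * A + 1)) (by positivity) δ hδ hδ1
    (by
      intro h hh1 hh2
      have hhr : (1 : ℝ) ≤ h := by exact_mod_cast hh1
      have hhr2 : (h : ℝ) ≤ k := by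
        have h1 : (h : ℝ) * 1 ≤ h * (δ * Z) := by gcongr
        have h2 : (h : ℝ) * (δ * Z) = (h * δ) * Z := by ring
        have h3 : (h : ℝ) * δ * Z ≤ 10 * Z := by gcongr
        linarith
      have h1 := hN₁ k (by omega) (2 * k) (by omega) le_rfl ((h : ℝ) * b) (by
        rw [← hl]
        have h2 : 2 * (3 * A + 1) + 14 = 6 * A + 16 := by ring
        rw [h2]
        nlinarith) (by
        calc (h : ℝ) * b ≤ (k : ℝ) * (k : ℝ) ^ d := by gcongr
          _ = (k : ℝ) ^ (d + 1) := by rw [pow_succ'])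
      rw [← hl] at h1
      refine le_trans (le_of_eq ?_) h1
      congr 1
      refine sum_congr rfl fun m _ => ?_
      rw [mul_div_assoc])
  -- the weight of the prime powers
  have hpsi := psi_sub k (2 * k) (by omega)
  have hthe := theta_sub k (2 * k) (by omega)
  have hth1 := hth (2 * k) (by omega)
  have hth2 := hth k hk2
  have hpt := hC₂ ((2 * k : ℕ) : ℝ)
  have hpt1 := hC₂ (k : ℝ)
  have hpt2 := Chebyshev.theta_le_psi (k : ℝ)
  have hpt3 := Chebyshev.theta_le_psi ((2 * k : ℕ) : ℝ)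
  have hlog2k : l ≤ Real.log ((2 * k : ℕ) : ℝ) := by
    rw [hl]
    exact Real.log_le_log hk0 (by push_cast; linarith)
  have hCl : 16 * C ≤ l := by linarith
  have e1 : C * (((2 * k : ℕ) : ℝ) / Real.log ((2 * k : ℕ) : ℝ) ^ 1) ≤ k / 8 := by
    rw [pow_one]
    calc C * (((2 * k : ℕ) : ℝ) / Real.log ((2 * k : ℕ) : ℝ))
        ≤ C * (((2 * k : ℕ) : ℝ) / l) := by gcongr
      _ = (C * 16 / l) * (k / 8) := by push_cast; ring
      _ ≤ 1 * (k / 8) := by
          apply mul_le_mul_of_nonneg_right _ (by positivity)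
          rw [div_le_one (by linarith)]; linarith
      _ = _ := one_mul _
  have e2 : C * ((k : ℝ) / Real.log (k : ℝ) ^ 1) ≤ k / 16 := by
    rw [pow_one, ← hl]
    calc C * ((k : ℝ) / l) = (C * 16 / l) * (k / 16) := by ring
      _ ≤ 1 * (k / 16) := by
          apply mul_le_mul_of_nonneg_right _ (by positivity)
          rw [div_le_one (by linarith)]; linarith
      _ = _ := one_mul _
  have e3' : |C₂| * (2 * Real.sqrt k) ≤ δ * k / 192 := by
    have h1 : |C₂| * (2 * Real.sqrt k) = (384 * |C₂|) * Real.sqrt k / 192 := by ring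
    have h2 : (384 * |C₂|) * Real.sqrt k ≤ δ * Real.sqrt k * Real.sqrt k := by gcongr
    have h3 : δ * Real.sqrt k * Real.sqrt k = δ * k := by rw [mul_assoc, hskm]
    rw [h1]
    linarith
  have e3 : C₂ * Real.sqrt ((2 * k : ℕ) : ℝ) ≤ δ * k / 192 := by
    have h1 : Real.sqrt ((2 * k : ℕ) : ℝ) ≤ 2 * Real.sqrt k := by
      rw [Real.sqrt_le_left (by positivity), mul_pow, Real.sq_sqrt hk0.le]
      push_cast; linarith
    calc C₂ * Real.sqrt ((2 * k : ℕ) : ℝ) ≤ |C₂| * Real.sqrt ((2 * k : ℕ) : ℝ) := by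
          gcongr; exact le_abs_self _
      _ ≤ |C₂| * (2 * Real.sqrt k) := by gcongr
      _ ≤ _ := e3'
  have e5 : C₂ * Real.sqrt (k : ℝ) ≤ δ * k / 192 := by
    calc C₂ * Real.sqrt (k : ℝ) ≤ |C₂| * Real.sqrt k := by
          gcongr; exact le_abs_self _
      _ ≤ |C₂| * (2 * Real.sqrt k) := by
          gcongr
          linarith
      _ ≤ _ := e3'
  have e6 : δ * k ≤ k := by nlinarith
  have a1 := (abs_le.1 hth1).1
  have a2 := (abs_le.1 hth2).2
  have hk2c : ((2 * k : ℕ) : ℝ) = 2 * k := by push_cast; ring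
  have htot : (k : ℝ) / 2 ≤ ∑ m ∈ Ioc k (2 * k), ArithmeticFunction.vonMangoldt m := by
    rw [← hpsi]
    linarith
  have hnon : ∑ m ∈ (Ioc k (2 * k)).filter (fun m => ¬ m.Prime), ArithmeticFunction.vonMangoldt m ≤
      δ * k / 192 := by
    have h1 := sum_filter_add_sum_filter_not (Ioc k (2 * k)) Nat.Prime
      (fun m => ArithmeticFunction.vonMangoldt m)
    have h2 : ∑ m ∈ (Ioc k (2 * k)).filter Nat.Prime, ArithmeticFunction.vonMangoldt m =
        ∑ p ∈ (Ioc k (2 * k)).filter Nat.Prime, Real.log p := by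
      refine sum_congr rfl fun m hm => ?_
      rw [mem_filter] at hm
      exact ArithmeticFunction.vonMangoldt_apply_prime hm.2
    rw [h2, ← hpsi, ← hthe] at h1
    linarith
  -- splitting
  obtain ⟨F, hF⟩ : ∃ F : Finset ℕ, F = (Ioc k (2 * k)).filter
    (fun m : ℕ => Int.fract ((b : ℝ) / m) < δ / 2) := ⟨_, rfl⟩
  have hsplit := sum_filter_add_sum_filter_not F Nat.Prime
    (fun m => ArithmeticFunction.vonMangoldt m)
  have hs1 : ∑ m ∈ F.filter Nat.Prime, ArithmeticFunction.vonMangoldt m ≤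
      ∑ p ∈ W k a b, Real.log (p : ℝ) := by
    have h2 : ∑ m ∈ F.filter Nat.Prime, ArithmeticFunction.vonMangoldt m =
        ∑ p ∈ F.filter Nat.Prime, Real.log (p : ℝ) := by
      refine sum_congr rfl fun m hm => ?_
      rw [mem_filter] at hm
      exact ArithmeticFunction.vonMangoldt_apply_prime hm.2
    rw [h2]
    refine sum_le_sum_of_subset_of_nonneg ?_ fun p hp _ => ?_
    · intro p hp
      rw [mem_filter, hF, mem_filter, mem_Ioc] at hp
      exact mem_W_fract hk2 hp.2 hp.1.1.1 hp.1.1.2 hab hp.1.2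
    · rw [mem_W] at hp
      exact log_nonneg' hp.2.1
  have hs2 : ∑ m ∈ F.filter (fun m => ¬ m.Prime), ArithmeticFunction.vonMangoldt m ≤
      ∑ m ∈ (Ioc k (2 * k)).filter (fun m => ¬ m.Prime), ArithmeticFunction.vonMangoldt m := by
    refine sum_le_sum_of_subset_of_nonneg ?_ fun p hp _ => ArithmeticFunction.vonMangoldt_nonneg
    intro p hp
    rw [mem_filter, hF, mem_filter] at hp
    rw [mem_filter]
    exact ⟨hp.1.1, hp.2⟩
  have hcore2 : δ / 24 * (∑ m ∈ Ioc k (2 * k), ArithmeticFunction.vonMangoldt m) -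
      4 * ((k : ℝ) / l ^ (3 * A + 1)) / δ ^ 2 ≤ ∑ m ∈ F, ArithmeticFunction.vonMangoldt m := by
    rw [hF]
    exact hcore
  have h3 : δ * k / 48 ≤ δ / 24 * (∑ m ∈ Ioc k (2 * k), ArithmeticFunction.vonMangoldt m) := by
    have h4 : δ * k / 48 = δ / 24 * (k / 2) := by ring
    rw [h4]
    gcongr
  have h4 : 4 * ((k : ℝ) / l ^ (3 * A + 1)) / δ ^ 2 ≤ δ * k / 192 := by
    rw [hl3, div_le_iff₀ (by positivity)]
    have h5 : 4 * ((k : ℝ) / (Z ^ 3 * l)) = 4 * k / (Z ^ 3 * l) := by ring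
    rw [h5, div_le_iff₀ (by positivity)]
    have h6 : δ * k / 192 * δ ^ 2 * (Z ^ 3 * l) = (δ * Z) ^ 3 * l * (k / 192) := by ring
    have h7 : 1 ^ 3 * 768 * ((k : ℝ) / 192) ≤ (δ * Z) ^ 3 * l * (k / 192) := by
      have : (768 : ℝ) ≤ l := by linarith
      gcongr
    rw [h6]
    linarith
  linarith

/-- all ranges -/
theorem main_weight (A d : ℕ) : ∃ k₀ : ℕ, ∀ k : ℕ, k₀ ≤ k → ∀ a b : ℕ, ∀ δ : ℝ, 0 < δ → δ ≤ 1 →
    1 ≤ δ * (Real.log k) ^ A → k ≤ a → b ≤ k ^ d → δ * k ≤ (b : ℝ) - a →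
    δ * k / 96 ≤ ∑ p ∈ W k a b, Real.log (p : ℝ) := by
  obtain ⟨N₁, hN₁⟩ := large A d
  obtain ⟨C, hC, hth⟩ := Pool.Agent.H442R2.EHI.PntErrAux.thetaU (7 * A + 17)
  obtain ⟨N₂, hN₂⟩ := ev_log' 1 one_pos (7 * A + 17) (320 * C + 80)
  refine ⟨N₁ + N₂ + 2, fun k hk a b δ hδ hδ1 hδA ha hb hab => ?_⟩
  have hk2 : 2 ≤ k := by omega
  have hkr : (2 : ℝ) ≤ k := by exact_mod_cast hk2
  have hk0 : (0 : ℝ) < k := by linarith
  rcases le_or_gt ((k : ℝ) * (Real.log k) ^ (6 * A + 16)) b with h1 | h1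
  · exact hN₁ k (by omega) a b δ hδ hδ1 hδA h1 (by exact_mod_cast hb) hab
  · obtain ⟨-, hB, hl1, -, hpow⟩ := hN₂ k (by omega)
    rw [Real.rpow_one] at hpow
    obtain ⟨l, hl⟩ : ∃ l : ℝ, l = Real.log k := ⟨_, rfl⟩
    rw [← hl] at hB hl1 hpow h1 hδA
    have hl0 : 0 < l := by linarith
    obtain ⟨R, hR⟩ : ∃ R : ℝ, R = l ^ (6 * A + 16) := ⟨_, rfl⟩
    obtain ⟨Z, hZ⟩ : ∃ Z : ℝ, Z = l ^ A := ⟨_, rfl⟩
    have hR1 : 1 ≤ R := by rw [hR]; exact one_le_pow₀ hl1
    have hZ1 : 1 ≤ Z := by rw [hZ]; exact one_le_pow₀ hl1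
    have hR0 : 0 < R := by linarith
    have hZ0 : 0 < Z := by linarith
    have hU : l ^ (7 * A + 17) = Z * (l * R) := by
      rw [hZ, hR]
      ring
    rw [hU] at hpow
    rw [← hR] at h1
    rw [← hZ] at hδA
    have hCpos : 0 < 320 * C := by positivity
    have hl80 : 80 ≤ l := by linarith
    have hCl : 320 * C ≤ l := by linarith
    obtain ⟨δ', hδ'⟩ : ∃ δ' : ℝ, δ' = δ / 2 := ⟨_, rfl⟩
    have hδ'0 : 0 < δ' := by rw [hδ']; positivity
    have hδ'Z : 1 / 2 ≤ δ' * Z := by rw [hδ']; linarith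
    -- δ' l^U ≥ l R / 2
    have hδ'U : l * R / 2 ≤ δ' * (Z * (l * R)) := by
      have h2 : 1 / 2 * (l * R) ≤ δ' * Z * (l * R) := by gcongr
      linarith
    have hδ'k : l * R / 2 ≤ δ' * k := hδ'U.trans (by gcongr)
    have hlR : l * 1 ≤ l * R := by gcongr
    have hδk40 : 40 ≤ δ' * k := by linarith
    -- the shortened interval
    obtain ⟨D, hD⟩ : ∃ D : ℕ, D = ⌈δ' * k⌉₊ := ⟨_, rfl⟩
    have hD1 : δ' * k ≤ D := by rw [hD]; exact Nat.le_ceil _
    have hDk : D ≤ k := by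
      rw [hD, Nat.ceil_le, hδ']
      nlinarith
    have hab' : a ≤ b := by
      have h2 : (0 : ℝ) ≤ δ * k := by positivity
      have h3 : (a : ℝ) ≤ b := by linarith
      exact_mod_cast h3
    have hDb : a + D ≤ b := by
      have h2 : D ≤ b - a := by
        rw [hD, Nat.ceil_le, Nat.cast_sub hab', hδ']
        have h3 : δ / 2 * k ≤ δ * k := by
          have : 0 ≤ δ * k := by positivity
          linarith
        linarith
      omega
    obtain ⟨η, hη⟩ : ∃ η : ℝ, η = 2 * C * k / (Z * (l * R)) := ⟨_, rfl⟩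
    have herr : Err k η := by
      intro X hX1 hX2
      have h2 : l ≤ Real.log X := by
        rw [hl]
        exact Real.log_le_log hk0 (by exact_mod_cast hX1)
      have h3 : (X : ℝ) ≤ 2 * k := by exact_mod_cast hX2
      refine (hth X (by omega)).trans ?_
      rw [hη, ← hU]
      calc C * ((X : ℝ) / Real.log X ^ (7 * A + 17)) ≤ C * ((2 * k) / l ^ (7 * A + 17)) := by gcongr
        _ = 2 * C * k / l ^ (7 * A + 17) := by ring
    have h20 : δ' * k / 20 ≤ ∑ p ∈ W k a (a + D), Real.log (p : ℝ) := by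
      rcases Nat.lt_or_ge (8 * k) (a + D) with h8 | h8
      · refine range2 (R := R) hk2 herr rfl h8 hDk hD1 hδ'0 ?_ ?_
        · have h2 : ((a + D : ℕ) : ℝ) ≤ b := by exact_mod_cast hDb
          linarith
        · have h2 : 2 * η ≤ δ' * k / (4 * R) := by
            rw [hη]
            have h3 : 2 * (2 * C * k / (Z * (l * R))) = 4 * C * k / (Z * (l * R)) := by ring
            rw [h3, div_le_div_iff₀ (by positivity) (by positivity)]
            have h4 : 4 * C * k * (4 * R) = 16 * C * R * k := by ring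
            have h5 : δ' * k * (Z * (l * R)) = δ' * (Z * (l * R)) * k := by ring
            rw [h4, h5]
            have h6 : 16 * C * R ≤ l * R / 2 := by nlinarith
            exact mul_le_mul_of_nonneg_right (h6.trans hδ'U) hk0.le
          have h3 : 1 ≤ δ' * k / (4 * R) := by
            rw [le_div_iff₀ (by positivity)]
            nlinarith
          have h4 : δ' * k / (2 * R) = δ' * k / (4 * R) + δ' * k / (4 * R) := by
            field_simp
            ring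
          rw [h4]
          linarith
      · refine range1 hk2 herr ha rfl h8 hDk hD1 hδk40 ?_
        rw [hη, div_le_div_iff₀ (by positivity) (by norm_num)]
        have h2 : 160 * C ≤ l * R / 2 := by linarith
        have h3 : 160 * C * k ≤ δ' * (Z * (l * R)) * k :=
          mul_le_mul_of_nonneg_right (h2.trans hδ'U) hk0.le
        linarith
    have h21 := h20.trans (W_sum_mono hDb)
    have h22 : δ' * k / 20 = δ * k / 40 := by rw [hδ']; ring
    have h23 : 0 ≤ δ * k := by positivity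
    linarith

/-- from weight to number -/
theorem count_of_weight {k a b : ℕ} (hk : 2 ≤ k) {w : ℝ}
    (h : w ≤ ∑ p ∈ W k a b, Real.log (p : ℝ)) :
    w / (2 * Real.log k) ≤ ((W k a b).card : ℝ) := by
  have hkr : (2 : ℝ) ≤ k := by exact_mod_cast hk
  have hk0 : (0 : ℝ) < k := by linarith
  have hl0 : 0 < Real.log k := Real.log_pos (by linarith)
  have h1 : ∑ p ∈ W k a b, Real.log (p : ℝ) ≤ (W k a b).card * (2 * Real.log k) := by
    rw [← nsmul_eq_mul]
    refine sum_le_card_nsmul _ _ _ fun p hp => ?_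
    rw [mem_W] at hp
    have h2 : (p : ℝ) ≤ (k : ℝ) ^ 2 := by
      have h3 : (p : ℝ) ≤ 2 * k := by exact_mod_cast hp.1.2.le
      nlinarith
    have h4 : (0 : ℝ) < p := by exact_mod_cast hp.2.1.pos
    calc Real.log (p : ℝ) ≤ Real.log ((k : ℝ) ^ 2) := Real.log_le_log h4 h2
      _ = 2 * Real.log k := by rw [Real.log_pow]; norm_num
  rw [div_le_iff₀ (by positivity)]
  exact h.trans h1

theorem main_count (A d : ℕ) : ∃ k₀ : ℕ, ∀ k : ℕ, k₀ ≤ k → ∀ a b : ℕ, k ≤ a → b ≤ k ^ d →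
    (k : ℝ) / (Real.log k) ^ A ≤ (b : ℝ) - a → (b : ℝ) - a ≤ k →
    ((b : ℝ) - a) / (192 * Real.log k) ≤ ((W k a b).card : ℝ) := by
  obtain ⟨k₀, h⟩ := main_weight A d
  refine ⟨k₀ + 2, fun k hk a b ha hb h1 h2 => ?_⟩
  have hk2 : 2 ≤ k := by omega
  have hkr : (2 : ℝ) ≤ k := by exact_mod_cast hk2
  have hk0 : (0 : ℝ) < k := by linarith
  have hl0 : 0 < Real.log k := Real.log_pos (by linarith)
  have h3 : 0 < (k : ℝ) / (Real.log k) ^ A := by positivity
  have h4 := h k (by omega) a b (((b : ℝ) - a) / k) (div_pos (by linarith) hk0)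
    (by rw [div_le_one hk0]; exact h2)
    (by
      rw [div_mul_eq_mul_div, le_div_iff₀ hk0, one_mul]
      rwa [div_le_iff₀ (by positivity)] at h1) ha hb (by rw [div_mul_cancel₀ _ hk0.ne'])
  rw [div_mul_cancel₀ _ hk0.ne'] at h4
  have h5 := count_of_weight hk2 h4
  have h6 : ((b : ℝ) - a) / 96 / (2 * Real.log k) = ((b : ℝ) - a) / (192 * Real.log k) := by
    rw [div_div]
    congr 1
    ring
  rw [h6] at h5
  exact h5

end Pool.Agent.Y371.NK
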