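import Pool.Agent.Y371.NK.Large

/-!
# Primes of `(n, 2 n)` dividing exactly one of `n` consecutive integers, to the first power
-/

set_option autoImplicit false

namespace Pool.Agent.Y371.NK
open Finset
open Pool.Agent.H895R3.NK (ev_log')

/-- few primes have a square dividing a term -/
theorem bad_card {m n : ℕ} (hn : 2 ≤ n) (S : Finset ℕ)
    (hS : ∀ p ∈ S, n < p ∧ ∃ t : ℕ, m < p ^ 2 * t ∧ p ^ 2 * t ≤ m + n) :
    S.card ≤ (m + n) / n ^ 2 := by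
  classical
  have h : ∀ p : ℕ, ∃ t : ℕ, p ∈ S → n < p ∧ m < p ^ 2 * t ∧ p ^ 2 * t ≤ m + n := by
    intro p
    by_cases hp : p ∈ S
    · obtain ⟨h1, t, h2⟩ := hS p hp
      exact ⟨t, fun _ => ⟨h1, h2⟩⟩
    · exact ⟨0, fun h => absurd h hp⟩
  choose t ht using h
  have hcard := card_le_card_of_injOn (s := S)
    (t := Icc 1 ((m + n) / n ^ 2)) t (fun p hp => ?_) (fun p hp q hq hpq => ?_)
  · rwa [Nat.card_Icc, Nat.add_sub_cancel] at hcard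
  · obtain ⟨h1, h2, h3⟩ := ht p (mem_coe.1 hp)
    rw [mem_coe, mem_Icc]
    constructor
    · by_contra h4
      have h5 : t p = 0 := by omega
      rw [h5] at h2
      omega
    · rw [Nat.le_div_iff_mul_le (by positivity), mul_comm]
      exact (Nat.mul_le_mul_right _ (Nat.pow_le_pow_left h1.le 2)).trans h3
  · have key : ∀ p q : ℕ, n < p → p < q → m < p ^ 2 * t q → q ^ 2 * t q ≤ m + n → False := by
      intro p q h1 h2 h3 h4
      have h5 : 1 ≤ t q := by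
        by_contra h6
        have h7 : t q = 0 := by omega
        rw [h7] at h3
        omega
      have h6 : p ^ 2 + n ≤ q ^ 2 := by
        have h7 : (p + 1) ^ 2 ≤ q ^ 2 := Nat.pow_le_pow_left h2 2
        nlinarith
      have h7 : (p ^ 2 + n) * t q ≤ q ^ 2 * t q := Nat.mul_le_mul_right _ h6
      have h8 : n * 1 ≤ n * t q := Nat.mul_le_mul_left _ h5
      rw [add_mul] at h7
      omega
    obtain ⟨h1, h2, h3⟩ := ht p (mem_coe.1 hp)
    obtain ⟨h4, h5, h6⟩ := ht q (mem_coe.1 hq)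
    rcases lt_trichotomy p q with h | h | h
    · exact (key p q h1 h (by rw [← hpq]; exact h2) h6).elim
    · exact h
    · exact (key q p h4 h (by rw [hpq]; exact h5) h3).elim

/-- the range `n ≤ m ≤ n ^ (3 - ε)` -/
theorem once_many (ε : ℝ) (hε : 0 < ε) : ∃ n₀ : ℕ, ∀ n : ℕ, n₀ ≤ n → ∀ m : ℕ, n ≤ m →
    (m : ℝ) ≤ (n : ℝ) ^ (3 - ε) → ∃ S : Finset ℕ, (n : ℝ) / (200 * Real.log n) ≤ S.card ∧
      ∀ p ∈ S, p.Prime ∧ n < p ∧ ∃ m' : ℕ, m < m' ∧ m' ≤ m + n ∧ p ∣ m' ∧ ¬ p ^ 2 ∣ m' := by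
  classical
  obtain ⟨N₁, hN₁⟩ := main_count 0 3
  obtain ⟨N₂, hN₂⟩ := ev_log' ε hε 2 9600
  refine ⟨N₁ + N₂ + 2, fun n hn m hnm hm => ?_⟩
  obtain ⟨-, hB, hl1, -, hpow⟩ := hN₂ n (by omega)
  have hnr : (2 : ℝ) ≤ n := by exact_mod_cast (by omega : 2 ≤ n)
  have hn0 : (0 : ℝ) < n := by linarith
  obtain ⟨l, hl⟩ : ∃ l : ℝ, l = Real.log n := ⟨_, rfl⟩
  rw [← hl] at hB hl1 hpow ⊢
  have hl0 : 0 < l := by linarith
  obtain ⟨y, hy⟩ : ∃ y : ℝ, y = (n : ℝ) ^ ε := ⟨_, rfl⟩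
  rw [← hy] at hpow
  have hy0 : 0 < y := by rw [hy]; exact Real.rpow_pos_of_pos hn0 _
  have hly : 9600 * l ≤ y := by nlinarith
  have hy1 : 9600 ≤ y := by nlinarith
  have hmy : (m : ℝ) * y ≤ (n : ℝ) ^ 3 := by
    calc (m : ℝ) * y ≤ (n : ℝ) ^ (3 - ε) * y := by gcongr
      _ = (n : ℝ) ^ (3 : ℝ) := by rw [hy, ← Real.rpow_add hn0, sub_add_cancel]
      _ = (n : ℝ) ^ 3 := by exact_mod_cast Real.rpow_natCast (n : ℝ) 3
  have hnmr : (n : ℝ) ≤ m := by exact_mod_cast hnm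
  have hm3 : m + n ≤ n ^ 3 := by
    have h1 : (m : ℝ) + n ≤ (n : ℝ) ^ 3 := by nlinarith
    exact_mod_cast h1
  have h1 := hN₁ n (by omega) m (m + n) hnm hm3 (by
    push_cast
    rw [pow_zero, div_one]
    linarith) (by push_cast; linarith)
  rw [← hl] at h1
  have h2 : (((m + n : ℕ) : ℝ) - m) = n := by push_cast; ring
  rw [h2] at h1
  obtain ⟨B, hBd⟩ : ∃ B : Finset ℕ, B = (W n m (m + n)).filter
    (fun p => ∃ t : ℕ, m < p ^ 2 * t ∧ p ^ 2 * t ≤ m + n) := ⟨_, rfl⟩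
  obtain ⟨G, hGd⟩ : ∃ G : Finset ℕ, G = (W n m (m + n)).filter
    (fun p => ¬ ∃ t : ℕ, m < p ^ 2 * t ∧ p ^ 2 * t ≤ m + n) := ⟨_, rfl⟩
  have h3 : (B.card : ℝ) ≤ 2 * n / y := by
    have h4 : (B.card : ℝ) ≤ (((m + n) / n ^ 2 : ℕ) : ℝ) := by
      exact_mod_cast bad_card (m := m) (n := n) (by omega) B (by
        intro p hp
        rw [hBd, mem_filter, mem_W] at hp
        exact ⟨hp.1.1.1, hp.2⟩)
    have h5 : (((m + n) / n ^ 2 : ℕ) : ℝ) ≤ ((m + n : ℕ) : ℝ) / ((n ^ 2 : ℕ) : ℝ) := Nat.cast_div_le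
    refine (h4.trans h5).trans ?_
    push_cast
    rw [div_le_div_iff₀ (by positivity) hy0]
    nlinarith
  have hsplit := card_filter_add_card_filter_not (s := W n m (m + n))
    (fun p => ∃ t : ℕ, m < p ^ 2 * t ∧ p ^ 2 * t ≤ m + n)
  rw [← hBd, ← hGd] at hsplit
  have hsplit' : (B.card : ℝ) + (G.card : ℝ) = (W n m (m + n)).card := by exact_mod_cast hsplit
  have h4 : 2 * (n : ℝ) / y ≤ n / (4800 * l) := by
    rw [div_le_div_iff₀ hy0 (by positivity)]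
    nlinarith
  have h5 : (n : ℝ) / (192 * l) - n / (4800 * l) = n / (200 * l) := by
    field_simp
    norm_num
  refine ⟨G, by linarith, fun p hp => ?_⟩
  rw [hGd, mem_filter, mem_W] at hp
  obtain ⟨⟨⟨h6, h7⟩, h8, m', h9, h10, h11⟩, h12⟩ := hp
  refine ⟨h8, h6, m', h9, h10, h11, fun h13 => h12 ?_⟩
  obtain ⟨t, ht⟩ := h13
  exact ⟨t, by rw [← ht]; exact h9, by rw [← ht]; exact h10⟩

/-- the range `m ≤ n` -/
theorem once_small : ∃ n₀ : ℕ, ∀ n : ℕ, n₀ ≤ n → ∀ m : ℕ, 1 ≤ m → m ≤ n →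
    ∃ S : Finset ℕ, (n : ℝ) / (200 * Real.log n) ≤ S.card ∧
      ∀ p ∈ S, p.Prime ∧ m ≤ p ∧ p ≤ m + n ∧ m + n < 2 * p := by
  obtain ⟨C, hC, hth⟩ := Pool.Agent.H442R2.EHI.PntErrAux.thetaU 1
  obtain ⟨N₂, hN₂⟩ := ev_log' 1 one_pos 1 (16 * C)
  refine ⟨2 * N₂ + 8, fun n hn m hm hmn => ?_⟩
  have herr : ∀ N : ℕ, N₂ ≤ N → 2 ≤ N → |Chebyshev.theta (N : ℝ) - N| ≤ (N : ℝ) / 16 := by
    intro N h1 h2
    obtain ⟨-, hB, hl1, -, -⟩ := hN₂ N h1
    refine (hth N h2).trans ?_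
    rw [pow_one, ← mul_div_assoc, div_le_div_iff₀ (by linarith) (by norm_num)]
    have h3 : (0 : ℝ) ≤ N := Nat.cast_nonneg _
    nlinarith
  obtain ⟨s, hs⟩ : ∃ s : ℕ, s = m + n := ⟨_, rfl⟩
  have hs1 := herr s (by omega) (by omega)
  have hs2 := herr (s / 2) (by omega) (by omega)
  have hss : s / 2 ≤ s := Nat.div_le_self _ _
  have hsub := theta_sub (s / 2) s hss
  have hhalf : ((s / 2 : ℕ) : ℝ) ≤ (s : ℝ) / 2 := Nat.cast_div_le
  have hs0 : (0 : ℝ) ≤ s := Nat.cast_nonneg _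
  have h1 : (s : ℝ) / 4 ≤ ∑ p ∈ (Ioc (s / 2) s).filter Nat.Prime, Real.log p := by
    rw [← hsub]
    have a1 := (abs_le.1 hs1).1
    have a2 := (abs_le.1 hs2).2
    linarith
  have hnr : (2 : ℝ) ≤ n := by exact_mod_cast (by omega : 2 ≤ n)
  have hn0 : (0 : ℝ) < n := by linarith
  have hl0 : 0 < Real.log n := Real.log_pos (by linarith)
  have hsn : (s : ℝ) ≤ (n : ℝ) ^ 2 := by
    have h2 : (s : ℝ) ≤ 2 * n := by exact_mod_cast (by omega : s ≤ 2 * n)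
    nlinarith
  have h2 : ∑ p ∈ (Ioc (s / 2) s).filter Nat.Prime, Real.log (p : ℝ) ≤
      ((Ioc (s / 2) s).filter Nat.Prime).card * (2 * Real.log n) := by
    rw [← nsmul_eq_mul]
    refine sum_le_card_nsmul _ _ _ fun p hp => ?_
    rw [mem_filter, mem_Ioc] at hp
    have h3 : (0 : ℝ) < p := by exact_mod_cast hp.2.pos
    have h4 : (p : ℝ) ≤ (n : ℝ) ^ 2 := le_trans (by exact_mod_cast hp.1.2) hsn
    calc Real.log (p : ℝ) ≤ Real.log ((n : ℝ) ^ 2) := Real.log_le_log h3 h4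
      _ = 2 * Real.log n := by rw [Real.log_pow]; norm_num
  have hns : (n : ℝ) ≤ s := by exact_mod_cast (by omega : n ≤ s)
  refine ⟨(Ioc (s / 2) s).filter Nat.Prime, ?_, fun p hp => ?_⟩
  · rw [div_le_iff₀ (by positivity)]
    have h4 : (0 : ℝ) ≤ (((Ioc (s / 2) s).filter Nat.Prime).card : ℝ) * Real.log n := by positivity
    nlinarith
  · rw [mem_filter, mem_Ioc] at hp
    exact ⟨hp.2, by omega, by omega, by omega⟩

end Pool.Agent.Y371.NK
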