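import Pool.Agent.Y371.NK.Large

/-!
# Power savings: windows of `k ^ (1 - c)` integers
-/

set_option autoImplicit false

namespace Pool.Agent.Y371.NK
open Finset
open Pool.Agent.H469R2.NK (e)
open Pool.Agent.H895R3.NK (prime_exp_bound ev_log')

theorem prime_exp_pow (d : ℕ) (ε : ℝ) (hε : 0 < ε) : ∃ κ : ℝ, 0 < κ ∧ ∃ N₀ : ℕ, ∀ N : ℕ, N₀ ≤ N →
    ∀ N' : ℕ, N ≤ N' → N' ≤ 2 * N → ∀ ξ : ℝ, (N : ℝ) ^ (1 + ε) ≤ ξ → ξ ≤ (N : ℝ) ^ d →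
    ‖∑ n ∈ Ioc N N', ((ArithmeticFunction.vonMangoldt n : ℝ) : ℂ) * e (ξ / (n : ℝ))‖ ≤
      N * (N : ℝ) ^ (-κ) := by
  obtain ⟨η, hη0, hη1, C, hC, h⟩ := prime_exp_bound d
  obtain ⟨ρ, hρ⟩ : ∃ ρ : ℝ, ρ = min (η / 4) ε := ⟨_, rfl⟩
  have hρ0 : 0 < ρ := by rw [hρ]; exact lt_min (by positivity) hε
  have hρ1 : ρ ≤ η / 4 := by rw [hρ]; exact min_le_left _ _
  have hρ2 : ρ ≤ ε := by rw [hρ]; exact min_le_right _ _
  obtain ⟨N₁, hN₁⟩ := ev_log' (ρ / 4) (by positivity) 7 (729 * (8 * Real.sqrt (2 * C) + 6 * C))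
  refine ⟨ρ / 4, by positivity, N₁ + 10 ^ 4, fun N hN N' hNN' hN' ξ hξ1 hξ2 => ?_⟩
  obtain ⟨h12, hB, hl1, hLg, hpow⟩ := hN₁ N (by omega)
  have hNr : (12 : ℝ) ≤ N := by exact_mod_cast h12
  have hN0 : (0 : ℝ) < N := by linarith
  have hN1 : (1 : ℝ) ≤ N := by linarith
  obtain ⟨l, hl⟩ : ∃ l : ℝ, l = Real.log N := ⟨_, rfl⟩
  rw [← hl] at hB hl1 hLg hpow
  have hl0 : 0 < l := by linarith
  have hξ0 : 0 < ξ := lt_of_lt_of_le (Real.rpow_pos_of_pos hN0 _) hξ1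
  refine (h N N' (by omega) hNN' hN' ξ hξ0 hξ2).trans ?_
  obtain ⟨Lg, hLgd⟩ : ∃ Lg : ℝ, Lg = 1 + Real.log (4 * N) := ⟨_, rfl⟩
  rw [← hLgd] at hLg ⊢
  have hLg1 : 1 ≤ Lg := by
    have := Real.log_nonneg (show (1 : ℝ) ≤ 4 * N by linarith)
    linarith
  obtain ⟨P, hP⟩ : ∃ P : ℝ, P = (N : ℝ) ^ (-(η / 4)) := ⟨_, rfl⟩
  rw [← hP]
  obtain ⟨T, hT⟩ : ∃ T : ℝ, T = (N : ℝ) ^ (-(ρ / 4)) := ⟨_, rfl⟩
  rw [← hT]
  have hT0 : 0 < T := by rw [hT]; exact Real.rpow_pos_of_pos hN0 _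
  have hT1 : T ≤ 1 := by
    rw [hT]
    exact Real.rpow_le_one_of_one_le_of_nonpos hN1 (by linarith)
  have hT4 : (N : ℝ) ^ (-ρ) = T ^ 4 := by
    rw [hT, ← Real.rpow_natCast, ← Real.rpow_mul hN0.le]
    congr 1
    push_cast
    ring
  have hP0 : 0 < P := by rw [hP]; exact Real.rpow_pos_of_pos hN0 _
  have hPT : P ≤ T ^ 4 := by
    rw [hP, ← hT4]
    exact Real.rpow_le_rpow_of_exponent_le hN1 (by linarith)
  have hNξ : (N : ℝ) / ξ ≤ T ^ 4 := by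
    rw [div_le_iff₀ hξ0, ← hT4]
    have h1 : (N : ℝ) ^ (-ρ) * (N : ℝ) ^ (1 + ε) ≤ (N : ℝ) ^ (-ρ) * ξ := by gcongr
    refine le_trans ?_ h1
    rw [← Real.rpow_add hN0]
    calc (N : ℝ) = (N : ℝ) ^ (1 : ℝ) := (Real.rpow_one _).symm
      _ ≤ _ := Real.rpow_le_rpow_of_exponent_le hN1 (by linarith)
  have hTl : T * l ^ 7 ≤ 1 := by
    rw [hT, Real.rpow_neg hN0.le]
    rw [inv_mul_le_iff₀ (Real.rpow_pos_of_pos hN0 _), mul_one]
    exact hpow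
  have hC0 : 0 < C := by linarith
  have e1 : (N : ℝ) ^ 3 * Lg / ξ ≤ (N : ℝ) ^ 2 * Lg * T ^ 4 := by
    calc (N : ℝ) ^ 3 * Lg / ξ = (N : ℝ) ^ 2 * Lg * (N / ξ) := by ring
      _ ≤ _ := by gcongr
  have e2 : (N : ℝ) ^ 2 / ξ ≤ N * T ^ 4 := by
    calc (N : ℝ) ^ 2 / ξ = N * (N / ξ) := by ring
      _ ≤ _ := by gcongr
  have hT42 : T ^ 4 ≤ T ^ 2 := pow_le_pow_of_le_one hT0.le hT1 (by norm_num)
  have hsq : Real.sqrt (C * ((N : ℝ) ^ 2 * P + (N : ℝ) ^ 3 * Lg / ξ)) ≤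
      Real.sqrt (2 * C) * N * Lg * T ^ 2 := by
    rw [Real.sqrt_le_left (by positivity)]
    have h1 : (N : ℝ) ^ 2 * T ^ 4 * 1 ≤ (N : ℝ) ^ 2 * T ^ 4 * Lg := by gcongr
    calc C * ((N : ℝ) ^ 2 * P + (N : ℝ) ^ 3 * Lg / ξ) ≤
        C * ((N : ℝ) ^ 2 * T ^ 4 + (N : ℝ) ^ 2 * Lg * T ^ 4) := by gcongr
      _ ≤ C * ((N : ℝ) ^ 2 * T ^ 4 * Lg + (N : ℝ) ^ 2 * Lg * T ^ 4) :=
        mul_le_mul_of_nonneg_left (by linarith) hC0.le
      _ = 2 * C * (N : ℝ) ^ 2 * T ^ 4 * Lg := by ring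
      _ ≤ 2 * C * (N : ℝ) ^ 2 * T ^ 4 * Lg ^ 2 := by
        gcongr
        nlinarith
      _ = (Real.sqrt (2 * C) * N * Lg * T ^ 2) ^ 2 := by
        rw [mul_pow, mul_pow, mul_pow, Real.sq_sqrt (by positivity)]
        ring
  have t1 : 8 * Lg ^ 5 * Real.sqrt (C * ((N : ℝ) ^ 2 * P + (N : ℝ) ^ 3 * Lg / ξ)) ≤
      8 * Real.sqrt (2 * C) * (N * Lg ^ 6 * T ^ 2) := by
    calc _ ≤ 8 * Lg ^ 5 * (Real.sqrt (2 * C) * N * Lg * T ^ 2) := by gcongr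
      _ = _ := by ring
  have t2 : 3 * Lg * (C * ((N : ℝ) ^ 2 / ξ + (N : ℝ) * P) * Lg) ≤
      6 * C * (N * Lg ^ 6 * T ^ 2) := by
    have h1 : Lg ^ 2 ≤ Lg ^ 6 := pow_le_pow_right₀ hLg1 (by norm_num)
    calc _ ≤ 3 * Lg * (C * (N * T ^ 4 + N * T ^ 4) * Lg) := by gcongr
      _ = 6 * C * (N * Lg ^ 2 * T ^ 4) := by ring
      _ ≤ 6 * C * (N * Lg ^ 6 * T ^ 2) := by gcongr
  have t3 : (N : ℝ) * Lg ^ 6 * T ^ 2 ≤ 729 * (N * l ^ 6 * T ^ 2) := by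
    calc (N : ℝ) * Lg ^ 6 * T ^ 2 ≤ N * (3 * l) ^ 6 * T ^ 2 := by gcongr
      _ = _ := by ring
  calc _ ≤ 8 * Real.sqrt (2 * C) * (N * Lg ^ 6 * T ^ 2) + 6 * C * (N * Lg ^ 6 * T ^ 2) :=
        add_le_add t1 t2
    _ = (8 * Real.sqrt (2 * C) + 6 * C) * (N * Lg ^ 6 * T ^ 2) := by ring
    _ ≤ (8 * Real.sqrt (2 * C) + 6 * C) * (729 * (N * l ^ 6 * T ^ 2)) := by gcongr
    _ = (729 * (8 * Real.sqrt (2 * C) + 6 * C)) * (N * l ^ 6 * T ^ 2) := by ring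
    _ ≤ l * (N * l ^ 6 * T ^ 2) := by gcongr
    _ = N * T * (T * l ^ 7) := by ring
    _ ≤ N * T * 1 := by gcongr
    _ = N * T := mul_one _

/-- the general argument -/
theorem large_core (k a b : ℕ) (hk2 : 2 ≤ k) (δ E C₂ : ℝ) (hδ : 0 < δ) (hδ1 : δ ≤ 1) (hE0 : 0 ≤ E)
    (hE : ∀ h : ℕ, 1 ≤ h → (h : ℝ) * δ ≤ 10 → ‖∑ m ∈ Ioc k (2 * k),
      ((ArithmeticFunction.vonMangoldt m : ℝ) : ℂ) * e (h * ((b : ℝ) / m))‖ ≤ E)
    (hEδ : 768 * E ≤ δ ^ 3 * k) (hC₂ : ∀ x : ℝ, Chebyshev.psi x - Chebyshev.theta x ≤ C₂ * √x)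
    (hδs : 384 * |C₂| ≤ δ * Real.sqrt k)
    (hth1 : |Chebyshev.theta ((2 * k : ℕ) : ℝ) - ((2 * k : ℕ) : ℝ)| ≤ k / 8)
    (hth2 : |Chebyshev.theta (k : ℝ) - k| ≤ k / 16) (hab : δ * k ≤ (b : ℝ) - a) :
    δ * k / 96 ≤ ∑ p ∈ W k a b, Real.log (p : ℝ) := by
  classical
  have hkr : (2 : ℝ) ≤ k := by exact_mod_cast hk2
  have hk0 : (0 : ℝ) < k := by linarith
  have hC20 := abs_nonneg C₂
  have hsk0 := Real.sqrt_nonneg (k : ℝ)
  have hskm : Real.sqrt k * Real.sqrt k = k := Real.mul_self_sqrt hk0.le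
  have hcore := core' (Ioc k (2 * k)) (fun m => ArithmeticFunction.vonMangoldt m)
    (fun m => ArithmeticFunction.vonMangoldt_nonneg) (fun m => (b : ℝ) / m)
    E hE0 δ hδ hδ1 hE
  have hpsi := psi_sub k (2 * k) (by omega)
  have hthe := theta_sub k (2 * k) (by omega)
  have hpt := hC₂ ((2 * k : ℕ) : ℝ)
  have hpt1 := hC₂ (k : ℝ)
  have hpt2 := Chebyshev.theta_le_psi (k : ℝ)
  have hpt3 := Chebyshev.theta_le_psi ((2 * k : ℕ) : ℝ)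
  have e3' : |C₂| * (2 * Real.sqrt k) ≤ δ * k / 192 := by
    have h1 : |C₂| * (2 * Real.sqrt k) = (384 * |C₂|) * Real.sqrt k / 192 := by ring
    have h2 : (384 * |C₂|) * Real.sqrt k ≤ δ * Real.sqrt k * Real.sqrt k := by gcongr
    have h3 : δ * Real.sqrt k * Real.sqrt k = δ * k := by rw [mul_assoc, hskm]
    rw [h1]
    linarith
  have e3 : C₂ * Real.sqrt ((2 * k : ℕ) : ℝ) ≤ δ * k / 192 := by
    have h1 : Real.sqrt ((2 * k : ℕ) : ℝ) ≤ 2 * Real.sqrt k := by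
      rw [Real.sqrt_le_left (by positivity), mul_pow, Real.sq_sqrt hk0.le]
      push_cast; linarith
    calc C₂ * Real.sqrt ((2 * k : ℕ) : ℝ) ≤ |C₂| * Real.sqrt ((2 * k : ℕ) : ℝ) := by
          gcongr; exact le_abs_self _
      _ ≤ |C₂| * (2 * Real.sqrt k) := by gcongr
      _ ≤ _ := e3'
  have e5 : C₂ * Real.sqrt (k : ℝ) ≤ δ * k / 192 := by
    calc C₂ * Real.sqrt (k : ℝ) ≤ |C₂| * Real.sqrt k := by
          gcongr; exact le_abs_self _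
      _ ≤ |C₂| * (2 * Real.sqrt k) := by
          gcongr
          linarith
      _ ≤ _ := e3'
  have e6 : δ * k ≤ k := by nlinarith
  have a1 := (abs_le.1 hth1).1
  have a2 := (abs_le.1 hth2).2
  have hk2c : ((2 * k : ℕ) : ℝ) = 2 * k := by push_cast; ring
  have htot : (k : ℝ) / 2 ≤ ∑ m ∈ Ioc k (2 * k), ArithmeticFunction.vonMangoldt m := by
    rw [← hpsi]
    linarith
  have hnon : ∑ m ∈ (Ioc k (2 * k)).filter (fun m => ¬ m.Prime), ArithmeticFunction.vonMangoldt m ≤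
      δ * k / 192 := by
    have h1 := sum_filter_add_sum_filter_not (Ioc k (2 * k)) Nat.Prime
      (fun m => ArithmeticFunction.vonMangoldt m)
    have h2 : ∑ m ∈ (Ioc k (2 * k)).filter Nat.Prime, ArithmeticFunction.vonMangoldt m =
        ∑ p ∈ (Ioc k (2 * k)).filter Nat.Prime, Real.log p := by
      refine sum_congr rfl fun m hm => ?_
      rw [mem_filter] at hm
      exact ArithmeticFunction.vonMangoldt_apply_prime hm.2
    rw [h2, ← hpsi, ← hthe] at h1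
    linarith
  obtain ⟨F, hF⟩ : ∃ F : Finset ℕ, F = (Ioc k (2 * k)).filter
    (fun m : ℕ => Int.fract ((b : ℝ) / m) < δ / 2) := ⟨_, rfl⟩
  have hsplit := sum_filter_add_sum_filter_not F Nat.Prime
    (fun m => ArithmeticFunction.vonMangoldt m)
  have hs1 : ∑ m ∈ F.filter Nat.Prime, ArithmeticFunction.vonMangoldt m ≤
      ∑ p ∈ W k a b, Real.log (p : ℝ) := by
    have h2 : ∑ m ∈ F.filter Nat.Prime, ArithmeticFunction.vonMangoldt m =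
        ∑ p ∈ F.filter Nat.Prime, Real.log (p : ℝ) := by
      refine sum_congr rfl fun m hm => ?_
      rw [mem_filter] at hm
      exact ArithmeticFunction.vonMangoldt_apply_prime hm.2
    rw [h2]
    refine sum_le_sum_of_subset_of_nonneg ?_ fun p hp _ => ?_
    · intro p hp
      rw [mem_filter, hF, mem_filter, mem_Ioc] at hp
      exact mem_W_fract hk2 hp.2 hp.1.1.1 hp.1.1.2 hab hp.1.2
    · rw [mem_W] at hp
      exact log_nonneg' hp.2.1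
  have hs2 : ∑ m ∈ F.filter (fun m => ¬ m.Prime), ArithmeticFunction.vonMangoldt m ≤
      ∑ m ∈ (Ioc k (2 * k)).filter (fun m => ¬ m.Prime), ArithmeticFunction.vonMangoldt m := by
    refine sum_le_sum_of_subset_of_nonneg ?_ fun p hp _ => ArithmeticFunction.vonMangoldt_nonneg
    intro p hp
    rw [mem_filter, hF, mem_filter] at hp
    rw [mem_filter]
    exact ⟨hp.1.1, hp.2⟩
  have hcore2 : δ / 24 * (∑ m ∈ Ioc k (2 * k), ArithmeticFunction.vonMangoldt m) -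
      4 * E / δ ^ 2 ≤ ∑ m ∈ F, ArithmeticFunction.vonMangoldt m := by
    rw [hF]
    exact hcore
  have h3 : δ * k / 48 ≤ δ / 24 * (∑ m ∈ Ioc k (2 * k), ArithmeticFunction.vonMangoldt m) := by
    have h4 : δ * k / 48 = δ / 24 * (k / 2) := by ring
    rw [h4]
    gcongr
  have h4 : 4 * E / δ ^ 2 ≤ δ * k / 192 := by
    rw [div_le_iff₀ (by positivity)]
    have h6 : δ * k / 192 * δ ^ 2 = δ ^ 3 * k / 192 := by ring
    rw [h6]
    linarith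
  linarith

/-- the range `k ^ (1 + ε) ≤ b ≤ k ^ d` -/
theorem large_pow (d : ℕ) (ε : ℝ) (hε : 0 < ε) : ∃ c : ℝ, 0 < c ∧ c ≤ 1 / 8 ∧ ∃ k₀ : ℕ, ∀ k : ℕ,
    k₀ ≤ k → ∀ a b : ℕ, ∀ δ : ℝ, 0 < δ → δ ≤ 1 → 1 ≤ δ * (k : ℝ) ^ c →
    (k : ℝ) ^ (1 + ε) ≤ b → (b : ℝ) ≤ (k : ℝ) ^ d → δ * k ≤ (b : ℝ) - a →
    δ * k / 96 ≤ ∑ p ∈ W k a b, Real.log (p : ℝ) := by
  obtain ⟨κ, hκ, N₁, hN₁⟩ := prime_exp_pow (d + 1) ε hε
  obtain ⟨C, hC, hth⟩ := Pool.Agent.H442R2.EHI.PntErrAux.thetaU 1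
  obtain ⟨C₂, hC₂⟩ := Chebyshev.psi_sub_theta_le_mul_sqrt
  obtain ⟨c, hc⟩ : ∃ c : ℝ, c = min (κ / 4) (1 / 8) := ⟨_, rfl⟩
  have hc0 : 0 < c := by rw [hc]; exact lt_min (by positivity) (by norm_num)
  have hc1 : 4 * c ≤ κ := by
    have : c ≤ κ / 4 := by rw [hc]; exact min_le_left _ _
    linarith
  have hc2 : c ≤ 1 / 8 := by rw [hc]; exact min_le_right _ _
  obtain ⟨N₂, hN₂⟩ := ev_log' c hc0 1 (16 * C + 384 * |C₂| + 768)
  refine ⟨c, hc0, hc2, N₁ + N₂ + 2, fun k hk a b δ hδ hδ1 hδc hb1 hb2 hab => ?_⟩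
  have hk2 : 2 ≤ k := by omega
  have hkr : (2 : ℝ) ≤ k := by exact_mod_cast hk2
  have hk0 : (0 : ℝ) < k := by linarith
  have hk1 : (1 : ℝ) ≤ k := by linarith
  obtain ⟨-, hB, hl1, -, hpow⟩ := hN₂ k (by omega)
  rw [pow_one] at hpow
  have hC20 := abs_nonneg C₂
  have hb0 : (0 : ℝ) < b := lt_of_lt_of_le (Real.rpow_pos_of_pos hk0 _) hb1
  obtain ⟨y, hy⟩ : ∃ y : ℝ, y = (k : ℝ) ^ c := ⟨_, rfl⟩
  rw [← hy] at hpow hδc
  have hy0 : 0 < y := by rw [hy]; exact Real.rpow_pos_of_pos hk0 _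
  have hyB : 16 * C + 384 * |C₂| + 768 ≤ y := hB.trans hpow
  have hy768 : 768 ≤ y := by
    have : 0 < 16 * C := by positivity
    linarith
  have hyC2 : 384 * |C₂| ≤ y := by
    have : 0 < 16 * C := by positivity
    linarith
  -- y ^ 4 ≤ √k
  have hy4 : y ^ 4 ≤ Real.sqrt k := by
    rw [hy, Real.sqrt_eq_rpow, ← Real.rpow_natCast, ← Real.rpow_mul hk0.le]
    apply Real.rpow_le_rpow_of_exponent_le hk1
    push_cast
    linarith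
  have hyκ : (k : ℝ) ^ (-κ) * y ^ 4 ≤ 1 := by
    rw [hy, ← Real.rpow_natCast, ← Real.rpow_mul hk0.le, ← Real.rpow_add hk0]
    apply Real.rpow_le_one_of_one_le_of_nonpos hk1
    push_cast
    linarith
  have hsk1 : 1 ≤ Real.sqrt k := by
    rw [Real.one_le_sqrt]
    linarith
  have hskm : Real.sqrt k * Real.sqrt k = k := Real.mul_self_sqrt hk0.le
  have hyk : 10 * y ≤ k := by
    have h1 : 10 * y ≤ y ^ 4 := by
      have h2 : (768 : ℝ) ^ 3 ≤ y ^ 3 := by gcongr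
      have h3 : (768 : ℝ) ^ 3 * y ≤ y ^ 3 * y := by gcongr
      have h4 : y ^ 3 * y = y ^ 4 := by ring
      nlinarith
    have h2 : Real.sqrt k ≤ Real.sqrt k * Real.sqrt k := by nlinarith
    linarith
  refine large_core k a b hk2 δ (k * (k : ℝ) ^ (-κ)) C₂ hδ hδ1 (by positivity) ?_ ?_ hC₂ ?_ ?_ ?_ hab
  · intro h hh1 hh2
    have hhr : (1 : ℝ) ≤ h := by exact_mod_cast hh1
    have hhr2 : (h : ℝ) ≤ k := by
      have h1 : (h : ℝ) * 1 ≤ h * (δ * y) := by gcongr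
      have h2 : (h : ℝ) * (δ * y) = (h * δ) * y := by ring
      have h3 : (h : ℝ) * δ * y ≤ 10 * y := by gcongr
      linarith
    have h1 := hN₁ k (by omega) (2 * k) (by omega) le_rfl ((h : ℝ) * b) (by nlinarith) (by
      calc (h : ℝ) * b ≤ (k : ℝ) * (k : ℝ) ^ d := by gcongr
        _ = (k : ℝ) ^ (d + 1) := by rw [pow_succ'])
    refine le_trans (le_of_eq ?_) h1
    congr 1
    refine sum_congr rfl fun m _ => ?_
    rw [mul_div_assoc]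
  · -- 768 k k^{-κ} ≤ δ^3 k
    have h1 : (k : ℝ) ^ (-κ) * y ^ 4 * δ ^ 3 ≤ 1 * δ ^ 3 := by gcongr
    have h2 : (1 : ℝ) ^ 3 ≤ (δ * y) ^ 3 := by gcongr
    have h3 : (k : ℝ) ^ (-κ) * (1 ^ 3 * 768) ≤ (k : ℝ) ^ (-κ) * ((δ * y) ^ 3 * y) := by gcongr
    have h4 : (k : ℝ) ^ (-κ) * ((δ * y) ^ 3 * y) = (k : ℝ) ^ (-κ) * y ^ 4 * δ ^ 3 := by ring
    have h5 : 768 * (k : ℝ) ^ (-κ) ≤ δ ^ 3 := by linarith
    calc 768 * ((k : ℝ) * (k : ℝ) ^ (-κ)) = (768 * (k : ℝ) ^ (-κ)) * k := by ring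
      _ ≤ δ ^ 3 * k := by gcongr
  · have h1 : δ * y ^ 4 ≤ δ * Real.sqrt k := by gcongr
    have h2 : 1 * y ^ 3 ≤ δ * y * y ^ 3 := by gcongr
    have h3 : δ * y * y ^ 3 = δ * y ^ 4 := by ring
    have h4 : y ≤ y ^ 3 := le_self_pow₀ (by linarith) (by norm_num)
    linarith
  · have hlog2k : Real.log k ≤ Real.log ((2 * k : ℕ) : ℝ) :=
      Real.log_le_log hk0 (by push_cast; linarith)
    refine (hth (2 * k) (by omega)).trans ?_
    rw [pow_one]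
    calc C * (((2 * k : ℕ) : ℝ) / Real.log ((2 * k : ℕ) : ℝ))
        ≤ C * (((2 * k : ℕ) : ℝ) / Real.log k) := by gcongr
      _ = (C * 16 / Real.log k) * (k / 8) := by push_cast; ring
      _ ≤ 1 * (k / 8) := by
          apply mul_le_mul_of_nonneg_right _ (by positivity)
          rw [div_le_one (by linarith)]; linarith
      _ = _ := one_mul _
  · refine (hth k hk2).trans ?_
    rw [pow_one]
    calc C * ((k : ℝ) / Real.log k) = (C * 16 / Real.log k) * (k / 16) := by ring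
      _ ≤ 1 * (k / 16) := by
          apply mul_le_mul_of_nonneg_right _ (by positivity)
          rw [div_le_one (by linarith)]; linarith
      _ = _ := one_mul _

theorem pow_count (d : ℕ) (ε : ℝ) (hε : 0 < ε) : ∃ c : ℝ, 0 < c ∧ ∃ k₀ : ℕ, ∀ k : ℕ, k₀ ≤ k →
    ∀ a b : ℕ, (k : ℝ) ^ (1 + ε) ≤ b → b ≤ k ^ d →
    (k : ℝ) ^ (1 - c) ≤ (b : ℝ) - a → (b : ℝ) - a ≤ k →
    ((b : ℝ) - a) / (192 * Real.log k) ≤ ((W k a b).card : ℝ) := by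
  obtain ⟨c, hc, -, k₀, h⟩ := large_pow d ε hε
  refine ⟨c, hc, k₀ + 2, fun k hk a b ha hb h1 h2 => ?_⟩
  have hk2 : 2 ≤ k := by omega
  have hkr : (2 : ℝ) ≤ k := by exact_mod_cast hk2
  have hk0 : (0 : ℝ) < k := by linarith
  have hl0 : 0 < Real.log k := Real.log_pos (by linarith)
  have h3 : 0 < (k : ℝ) ^ (1 - c) := Real.rpow_pos_of_pos hk0 _
  have h4 := h k (by omega) a b (((b : ℝ) - a) / k) (div_pos (by linarith) hk0)
    (by rw [div_le_one hk0]; exact h2)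
    (by
      rw [div_mul_eq_mul_div, le_div_iff₀ hk0, one_mul]
      calc (k : ℝ) = (k : ℝ) ^ (1 - c) * (k : ℝ) ^ c := by
            rw [← Real.rpow_add hk0, sub_add_cancel, Real.rpow_one]
        _ ≤ ((b : ℝ) - a) * (k : ℝ) ^ c := by gcongr) ha (by exact_mod_cast hb)
    (by rw [div_mul_cancel₀ _ hk0.ne'])
  rw [div_mul_cancel₀ _ hk0.ne'] at h4
  have h5 := count_of_weight hk2 h4
  have h6 : ((b : ℝ) - a) / 96 / (2 * Real.log k) = ((b : ℝ) - a) / (192 * Real.log k) := by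
    rw [div_div]
    congr 1
    ring
  rw [h6] at h5
  exact h5

end Pool.Agent.Y371.NK
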