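import Pool.Agent.Y371.NK.Fej

/-!
# Primes of `(k, 2k)` with a multiple in an interval: two ranges
-/

set_option autoImplicit false

namespace Pool.Agent.Y371.NK
open Finset

/-- The primes `p` with `k < p < 2 k` which divide some integer `m` with `a < m ≤ b`. -/
noncomputable def W (k a b : ℕ) : Finset ℕ :=
  open Classical in (Ioo k (2 * k)).filter fun p => p.Prime ∧ ∃ m : ℕ, a < m ∧ m ≤ b ∧ p ∣ m

theorem mem_W {k a b p : ℕ} : p ∈ W k a b ↔
    (k < p ∧ p < 2 * k) ∧ p.Prime ∧ ∃ m : ℕ, a < m ∧ m ≤ b ∧ p ∣ m := by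
  classical
  unfold W
  rw [mem_filter, mem_Ioo]

theorem lt_two_mul {k p : ℕ} (hk : 2 ≤ k) (hp : p.Prime) (h : p ≤ 2 * k) : p < 2 * k := by
  rcases h.lt_or_eq with h | h
  · exact h
  · exfalso
    rw [h] at hp
    exact Nat.not_prime_mul (by norm_num) (by omega) hp

theorem theta_sub (a b : ℕ) (hab : a ≤ b) :
    Chebyshev.theta (b : ℝ) - Chebyshev.theta (a : ℝ) =
      ∑ p ∈ (Ioc a b).filter Nat.Prime, Real.log p := by
  unfold Chebyshev.theta
  rw [Nat.floor_natCast, Nat.floor_natCast]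
  have h : (Ioc 0 b).filter Nat.Prime = (Ioc 0 a).filter Nat.Prime ∪ (Ioc a b).filter Nat.Prime := by
    rw [← filter_union, Ioc_union_Ioc_eq_Ioc (Nat.zero_le _) hab]
  rw [h, sum_union]
  · ring
  · apply disjoint_filter_filter
    rw [disjoint_left]
    intro x hx hx'
    rw [mem_Ioc] at hx hx'
    omega

/-- the error in the prime number theorem on `[k, 2 k]` -/
def Err (k : ℕ) (η : ℝ) : Prop := ∀ X : ℕ, k ≤ X → X ≤ 2 * k → |Chebyshev.theta (X : ℝ) - X| ≤ η

theorem log_nonneg' {p : ℕ} (hp : p.Prime) : 0 ≤ Real.log (p : ℝ) :=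
  Real.log_nonneg (by exact_mod_cast hp.one_lt.le)

theorem W_mono {k a b b' : ℕ} (h : b' ≤ b) : W k a b' ⊆ W k a b := by
  intro p hp
  rw [mem_W] at hp ⊢
  obtain ⟨h1, h2, m, h3, h4, h5⟩ := hp
  exact ⟨h1, h2, m, h3, h4.trans h, h5⟩

theorem W_sum_mono {k a b b' : ℕ} (h : b' ≤ b) :
    ∑ p ∈ W k a b', Real.log (p : ℝ) ≤ ∑ p ∈ W k a b, Real.log (p : ℝ) := by
  refine sum_le_sum_of_subset_of_nonneg (W_mono h) fun p hp _ => ?_
  rw [mem_W] at hp
  exact log_nonneg' hp.2.1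

/-- an interval of primes contained in `W` -/
theorem of_interval {k a b A B : ℕ} {η : ℝ} (hη : Err k η) (hA : k ≤ A) (hAB : A ≤ B)
    (hB : B ≤ 2 * k) (h : ∀ p : ℕ, p.Prime → A < p → p ≤ B → p ∈ W k a b) :
    (B : ℝ) - A - 2 * η ≤ ∑ p ∈ W k a b, Real.log (p : ℝ) := by
  have h1 := (abs_le.1 (hη B (hA.trans hAB) hB)).1
  have h2 := (abs_le.1 (hη A hA (hAB.trans hB))).2
  have h3 : ∑ p ∈ (Ioc A B).filter Nat.Prime, Real.log (p : ℝ) ≤
      ∑ p ∈ W k a b, Real.log (p : ℝ) := by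
    refine sum_le_sum_of_subset_of_nonneg ?_ fun p hp _ => ?_
    · intro p hp
      rw [mem_filter, mem_Ioc] at hp
      exact h p hp.2 hp.1.1 hp.1.2
    · rw [mem_W] at hp
      exact log_nonneg' hp.2.1
  rw [← theta_sub A B hAB] at h3
  linarith

/-- multiples by a fixed factor -/
theorem mem_W_mul {k a b t p : ℕ} (hk : 2 ≤ k) (ht : 0 < t) (hp : p.Prime) (h1 : k < p)
    (h2 : p ≤ 2 * k) (h3 : a / t < p) (h4 : p ≤ b / t) : p ∈ W k a b := by
  rw [mem_W]
  refine ⟨⟨h1, lt_two_mul hk hp h2⟩, hp, p * t, ?_, ?_, dvd_mul_right p t⟩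
  · exact (Nat.div_lt_iff_lt_mul ht).1 h3
  · exact (Nat.le_div_iff_mul_le ht).1 h4

/-- the range `b ≤ 8 k` -/
theorem range1 {k a b D : ℕ} {η δ : ℝ} (hk : 2 ≤ k) (hη : Err k η) (ha : k ≤ a) (hD : b = a + D)
    (hb : b ≤ 8 * k) (hDk : D ≤ k) (hδD : δ * k ≤ D) (hlarge : 40 ≤ δ * k) (hηs : η ≤ δ * k / 80) :
    δ * k / 20 ≤ ∑ p ∈ W k a b, Real.log (p : ℝ) := by
  have hDr : (40 : ℝ) ≤ D := hlarge.trans hδD
  have hD40 : 40 ≤ D := by exact_mod_cast hDr
  -- the conclusion from an interval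
  have key : ∀ A B : ℕ, k ≤ A → A ≤ B → B ≤ 2 * k → D ≤ 10 * (B - A) →
      (∀ p : ℕ, p.Prime → A < p → p ≤ B → p ∈ W k a b) →
      δ * k / 20 ≤ ∑ p ∈ W k a b, Real.log (p : ℝ) := by
    intro A B h1 h2 h3 h4 h5
    have h6 := of_interval hη h1 h2 h3 h5
    have h7 : (D : ℝ) ≤ 10 * ((B : ℝ) - A) := by
      have h8 : ((D : ℕ) : ℝ) ≤ ((10 * (B - A) : ℕ) : ℝ) := by exact_mod_cast h4
      rw [Nat.cast_mul, Nat.cast_sub h2] at h8
      exact_mod_cast h8
    linarith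
  by_cases h1 : 2 * b ≤ 4 * k + D
  · -- factor one
    refine key a (min b (2 * k)) ha (by omega) (min_le_right _ _) (by omega) ?_
    intro p hp hp1 hp2
    rw [mem_W]
    exact ⟨⟨by omega, lt_two_mul hk hp (by omega)⟩, hp, p, hp1, by omega, dvd_rfl⟩
  · obtain ⟨t, ht⟩ : ∃ t : ℕ, t = (b + 2 * k - 1) / (2 * k) := ⟨_, rfl⟩
    have h2k : 0 < 2 * k := by omega
    have ht1 : b ≤ 2 * k * t := by
      have h2 := Nat.div_add_mod (b + 2 * k - 1) (2 * k)
      have h3 := Nat.mod_lt (b + 2 * k - 1) h2k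
      rw [← ht] at h2
      omega
    have ht2 : 2 * k * t ≤ b + 2 * k - 1 := by
      rw [ht]; exact Nat.mul_div_le _ _
    have ht3 : 2 ≤ t := by
      by_contra h
      have h2 : t ≤ 1 := by omega
      have : 2 * k * t ≤ 2 * k * 1 := Nat.mul_le_mul_left _ h2
      omega
    have ht4 : t ≤ 4 := by
      by_contra h
      have h2 : 5 ≤ t := by omega
      have : 2 * k * 5 ≤ 2 * k * t := Nat.mul_le_mul_left _ h2
      omega
    have ht0 : 0 < t := by omega
    refine key (max k (a / t)) (b / t) (le_max_left _ _) ?_ ?_ ?_ ?_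
    · have : t = 2 ∨ t = 3 ∨ t = 4 := by omega
      rcases this with rfl | rfl | rfl <;> omega
    · have : t = 2 ∨ t = 3 ∨ t = 4 := by omega
      rcases this with rfl | rfl | rfl <;> omega
    · have : t = 2 ∨ t = 3 ∨ t = 4 := by omega
      rcases this with rfl | rfl | rfl <;> omega
    · intro p hp hp1 hp2
      refine mem_W_mul hk ht0 hp ?_ ?_ ?_ hp2
      · exact lt_of_le_of_lt (le_max_left _ _) hp1
      · have : t = 2 ∨ t = 3 ∨ t = 4 := by omega
        rcases this with rfl | rfl | rfl <;> omega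
      · exact lt_of_le_of_lt (le_max_right _ _) hp1

/-- the range `8 k < b ≤ k R` -/
theorem range2 {k a b D : ℕ} {η δ R : ℝ} (hk : 2 ≤ k) (hη : Err k η) (hD : b = a + D)
    (hb : 8 * k < b) (hDk : D ≤ k) (hδD : δ * k ≤ D) (hδ : 0 < δ) (hbR : (b : ℝ) ≤ k * R)
    (hηs : 2 * η + 1 ≤ δ * k / (2 * R)) :
    δ * k / 20 ≤ ∑ p ∈ W k a b, Real.log (p : ℝ) := by
  have hkr : (2 : ℝ) ≤ k := by exact_mod_cast hk
  have hk0 : (0 : ℝ) < k := by linarith
  have hk1 : 0 < k := by omega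
  have ha : 7 * k ≤ a := by omega
  have har : 7 * (k : ℝ) ≤ a := by exact_mod_cast ha
  have ha0 : (0 : ℝ) < a := by linarith
  have hbr : (b : ℝ) = a + D := by rw [hD]; push_cast; ring
  have hDkr : (D : ℝ) ≤ k := by exact_mod_cast hDk
  have hR0 : 0 < R := by
    by_contra h
    have h1 : (k : ℝ) * R ≤ 0 := mul_nonpos_of_nonneg_of_nonpos hk0.le (by linarith)
    have h2 : (0 : ℝ) ≤ D := Nat.cast_nonneg _
    linarith
  obtain ⟨T, hT⟩ : ∃ T : Finset ℕ, T = (Icc 1 (a / k)).filter (fun t => b ≤ 2 * k * t) := ⟨_, rfl⟩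
  have hmemT : ∀ t, t ∈ T ↔ (1 ≤ t ∧ t ≤ a / k) ∧ b ≤ 2 * k * t := by
    intro t
    rw [hT, mem_filter, mem_Icc]
  have hTk : ∀ t ∈ T, k ≤ a / t ∧ a / t ≤ b / t ∧ b / t ≤ 2 * k := by
    intro t ht
    rw [hmemT] at ht
    obtain ⟨⟨h1, h2⟩, h3⟩ := ht
    refine ⟨?_, ?_, ?_⟩
    · rw [Nat.le_div_iff_mul_le (by omega)]
      have h4 : t * k ≤ a := (Nat.le_div_iff_mul_le hk1).1 h2
      rw [mul_comm]
      exact h4
    · exact Nat.div_le_div_right (by omega)
    · exact Nat.div_le_of_le_mul (by rw [mul_comm]; exact h3)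
  -- disjointness
  have hdisj : (T : Set ℕ).PairwiseDisjoint fun t => (Ioc (a / t) (b / t)).filter Nat.Prime := by
    intro t ht s hs hts
    rw [Function.onFun, disjoint_left]
    intro p hp hp'
    rw [mem_filter, mem_Ioc] at hp hp'
    have ht' : 0 < t := by
      have := ((hmemT t).1 ht).1.1
      omega
    have hs' : 0 < s := by
      have := ((hmemT s).1 hs).1.1
      omega
    have hkp : k < p := lt_of_le_of_lt (hTk t ht).1 hp.1.1
    have h1 : a < p * t := (Nat.div_lt_iff_lt_mul ht').1 hp.1.1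
    have h2 : p * t ≤ b := (Nat.le_div_iff_mul_le ht').1 hp.1.2
    have h3 : a < p * s := (Nat.div_lt_iff_lt_mul hs').1 hp'.1.1
    have h4 : p * s ≤ b := (Nat.le_div_iff_mul_le hs').1 hp'.1.2
    rcases lt_or_gt_of_ne hts with h | h
    · have h5 : p * (t + 1) ≤ p * s := Nat.mul_le_mul_left _ h
      rw [mul_add, mul_one] at h5
      omega
    · have h5 : p * (s + 1) ≤ p * t := Nat.mul_le_mul_left _ h
      rw [mul_add, mul_one] at h5
      omega
  have hsub : ∑ t ∈ T, ∑ p ∈ (Ioc (a / t) (b / t)).filter Nat.Prime, Real.log (p : ℝ) ≤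
      ∑ p ∈ W k a b, Real.log (p : ℝ) := by
    rw [← sum_biUnion hdisj]
    refine sum_le_sum_of_subset_of_nonneg ?_ fun p hp _ => ?_
    · intro p hp
      rw [mem_biUnion] at hp
      obtain ⟨t, ht, hp⟩ := hp
      rw [mem_filter, mem_Ioc] at hp
      have h1 := hTk t ht
      have ht' : 0 < t := by
        have := ((hmemT t).1 ht).1.1
        omega
      exact mem_W_mul hk ht' hp.2 (by omega) (by omega) hp.1.1 hp.1.2
    · rw [mem_W] at hp
      exact log_nonneg' hp.2.1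
  -- each term
  have hterm : ∀ t ∈ T, δ * k ^ 2 / (2 * a) ≤
      ∑ p ∈ (Ioc (a / t) (b / t)).filter Nat.Prime, Real.log (p : ℝ) := by
    intro t ht
    obtain ⟨h1, h2, h3⟩ := hTk t ht
    have ht' : 0 < t := by
      have := ((hmemT t).1 ht).1.1
      omega
    have htr : (0 : ℝ) < t := by exact_mod_cast ht'
    rw [← theta_sub _ _ h2]
    have h4 := (abs_le.1 (hη (b / t) (h1.trans h2) h3)).1
    have h5 := (abs_le.1 (hη (a / t) h1 (h2.trans h3))).2
    have h6 : (b : ℝ) / t - 1 ≤ ((b / t : ℕ) : ℝ) := by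
      have h7 := Nat.lt_floor_add_one ((b : ℝ) / t)
      rw [Nat.floor_div_eq_div] at h7
      linarith
    have h7 : ((a / t : ℕ) : ℝ) ≤ (a : ℝ) / t := Nat.cast_div_le
    have h8 : (b : ℝ) / t - a / t = D / t := by
      rw [hbr]
      ring
    have h9 : (t : ℝ) * k ≤ a := by
      have h10 : t * k ≤ a := (Nat.le_div_iff_mul_le hk1).1 ((hmemT t).1 ht).1.2
      exact_mod_cast h10
    -- D / t ≥ δ k / t ≥ δ k ^ 2 / a
    have h10 : δ * k / t ≤ D / t := by gcongr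
    have h11 : δ * k ^ 2 / a ≤ δ * k / t := by
      rw [div_le_div_iff₀ ha0 htr]
      have : δ * k ^ 2 * t = δ * k * (t * k) := by ring
      rw [this]
      exact mul_le_mul_of_nonneg_left h9 (by positivity)
    have h12 : 2 * η + 1 ≤ δ * k ^ 2 / a / 2 := by
      refine hηs.trans ?_
      have h13 : (a : ℝ) ≤ k * R := by
        have h2 : (0 : ℝ) ≤ D := Nat.cast_nonneg _
        linarith
      rw [div_div, div_le_div_iff₀ (by positivity) (by positivity)]
      have h14 : δ * k * (a * 2) ≤ δ * k * (k * R * 2) := by gcongr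
      calc δ * k * (a * 2) ≤ δ * k * (k * R * 2) := h14
        _ = δ * k ^ 2 * (2 * R) := by ring
    have h13 : δ * k ^ 2 / (2 * a) = δ * k ^ 2 / a / 2 := by
      field_simp
    rw [h13]
    linarith
  -- the number of terms
  have hcard : (2 / 7 : ℝ) * (a / k) ≤ T.card := by
    have h1 : Icc ((b + 2 * k - 1) / (2 * k)) (a / k) ⊆ T := by
      intro t ht
      rw [mem_Icc] at ht
      rw [hmemT]
      have h2 : b ≤ 2 * k * t := by
        have h3 := Nat.div_add_mod (b + 2 * k - 1) (2 * k)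
        have h4 := Nat.mod_lt (b + 2 * k - 1) (show 0 < 2 * k by omega)
        have h5 : 2 * k * ((b + 2 * k - 1) / (2 * k)) ≤ 2 * k * t := Nat.mul_le_mul_left _ ht.1
        omega
      refine ⟨⟨?_, ht.2⟩, h2⟩
      by_contra h
      have : t = 0 := by omega
      rw [this] at h2
      omega
    have h2 := card_le_card h1
    rw [Nat.card_Icc] at h2
    have h3 : ((a / k + 1 - (b + 2 * k - 1) / (2 * k) : ℕ) : ℝ) ≤ T.card := by exact_mod_cast h2
    have h4 : ((a / k + 1 : ℕ) : ℝ) - (((b + 2 * k - 1) / (2 * k) : ℕ) : ℝ) ≤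
        ((a / k + 1 - (b + 2 * k - 1) / (2 * k) : ℕ) : ℝ) := by
      rw [sub_le_iff_le_add]
      exact_mod_cast (by omega : a / k + 1 ≤
        a / k + 1 - (b + 2 * k - 1) / (2 * k) + (b + 2 * k - 1) / (2 * k))
    have h5 : (a : ℝ) / k ≤ ((a / k + 1 : ℕ) : ℝ) := by
      have h7 := Nat.lt_floor_add_one ((a : ℝ) / k)
      rw [Nat.floor_div_eq_div] at h7
      push_cast at h7 ⊢
      linarith
    have h6 : (((b + 2 * k - 1) / (2 * k) : ℕ) : ℝ) ≤ (b + 2 * k) / (2 * k) := by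
      have h7 : (((b + 2 * k - 1) / (2 * k) : ℕ) : ℝ) ≤ ((b + 2 * k - 1 : ℕ) : ℝ) / ((2 * k : ℕ) : ℝ) :=
        Nat.cast_div_le
      have h8 : ((b + 2 * k - 1 : ℕ) : ℝ) ≤ b + 2 * k := by
        have h9 : b + 2 * k - 1 ≤ b + 2 * k := by omega
        exact_mod_cast h9
      refine h7.trans ?_
      push_cast
      gcongr
    have h7 : ((b : ℝ) + 2 * k) / (2 * k) ≤ 5 / 7 * (a / k) := by
      rw [div_le_iff₀ (by positivity)]
      have h8 : 5 / 7 * ((a : ℝ) / k) * (2 * k) = 10 / 7 * a := by field_simp; ring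
      rw [h8]
      linarith
    linarith
  have h1 : (T.card : ℝ) * (δ * k ^ 2 / (2 * a)) ≤
      ∑ t ∈ T, ∑ p ∈ (Ioc (a / t) (b / t)).filter Nat.Prime, Real.log (p : ℝ) := by
    rw [← nsmul_eq_mul]
    exact card_nsmul_le_sum _ _ _ hterm
  have h2 : (2 / 7 : ℝ) * (a / k) * (δ * k ^ 2 / (2 * a)) ≤ (T.card : ℝ) * (δ * k ^ 2 / (2 * a)) := by
    gcongr
  have h3 : (2 / 7 : ℝ) * (a / k) * (δ * k ^ 2 / (2 * a)) = δ * k / 7 := by
    field_simp
  have h4 : 0 ≤ δ * k := by positivity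
  linarith

end Pool.Agent.Y371.NK
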