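import Pool.Agent.Y371.NK.Once

/-!
# Squares `x ^ 2`, `k < x < 2 k`, with a multiple in an interval of `k` integers
-/

set_option autoImplicit false

namespace Pool.Agent.Y371.NK
open Finset
open Pool.Agent.H895R3.NK (ev_log')

/-- three points -/
theorem three (k a H x y z u v w : ℕ) (hk : 0 < k) (hx : k < x) (hxy : x < y) (hyz : y < z)
    (hz : z < 2 * k) (hH : z - x ≤ H)
    (hu : a < x ^ 2 * u ∧ x ^ 2 * u ≤ a + k) (hv : a < y ^ 2 * v ∧ y ^ 2 * v ≤ a + k)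
    (hw : a < z ^ 2 * w ∧ z ^ 2 * w ≤ a + k)
    (hsmall : 3 * (a : ℝ) * H ^ 3 / k ^ 4 + H / k < 1) :
    ((y : ℝ) - x) * ((z : ℝ) - y) * (3 * a) ≤ 64 * k ^ 3 := by
  have hk0 : (0 : ℝ) < k := by exact_mod_cast hk
  have hx1 : (k : ℝ) < x := by exact_mod_cast hx
  have hy1 : (x : ℝ) < y := by exact_mod_cast hxy
  have hz1 : (y : ℝ) < z := by exact_mod_cast hyz
  have hz2 : (z : ℝ) < 2 * k := by exact_mod_cast hz
  have hx0 : (0 : ℝ) < x := by linarith
  have hy0 : (0 : ℝ) < y := by linarith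
  have hz0 : (0 : ℝ) < z := by linarith
  have ha0 : (0 : ℝ) ≤ a := Nat.cast_nonneg _
  have hHr : (z : ℝ) - x ≤ H := by
    have h1 : z ≤ x + H := by omega
    have h2 : (z : ℝ) ≤ x + H := by exact_mod_cast h1
    linarith
  have hpt : ∀ s t : ℕ, k < s → a < s ^ 2 * t ∧ s ^ 2 * t ≤ a + k →
      0 ≤ (t : ℝ) - a / (s : ℝ) ^ 2 ∧ (t : ℝ) - a / (s : ℝ) ^ 2 ≤ 1 / k := by
    intro s t hs hst
    have hs1 : (k : ℝ) < s := by exact_mod_cast hs
    have hs0 : (0 : ℝ) < s := by linarith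
    have h1 : (a : ℝ) ≤ s ^ 2 * t := by exact_mod_cast hst.1.le
    have h2 : (s : ℝ) ^ 2 * t ≤ a + k := by exact_mod_cast hst.2
    have e1 : (t : ℝ) - a / (s : ℝ) ^ 2 = (s ^ 2 * t - a) / s ^ 2 := by
      field_simp
    rw [e1]
    constructor
    · apply div_nonneg <;> [linarith; positivity]
    · rw [div_le_div_iff₀ (by positivity) hk0]
      nlinarith
  obtain ⟨u1, u2⟩ := hpt x u hx hu
  obtain ⟨v1, v2⟩ := hpt y v (by omega) hv
  obtain ⟨w1, w2⟩ := hpt z w (by omega) hw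
  obtain ⟨A, hA⟩ : ∃ A : ℝ, A = (z : ℝ) - y := ⟨_, rfl⟩
  obtain ⟨B, hB⟩ : ∃ B : ℝ, B = (y : ℝ) - x := ⟨_, rfl⟩
  have hA0 : 0 < A := by rw [hA]; linarith
  have hB0 : 0 < B := by rw [hB]; linarith
  have hABH : A + B ≤ H := by rw [hA, hB]; linarith
  obtain ⟨N, hN⟩ : ∃ N : ℤ, N = ((z : ℤ) - y) * u - ((z : ℤ) - x) * v + ((y : ℤ) - x) * w := ⟨_, rfl⟩
  have hNr : (N : ℝ) = A * u - (A + B) * v + B * w := by
    rw [hN, hA, hB]
    push_cast
    ring
  obtain ⟨M, hM⟩ : ∃ M : ℝ, M = a * (A * B * (A + B)) * (x * y + y * z + x * z) /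
    (x ^ 2 * y ^ 2 * z ^ 2) := ⟨_, rfl⟩
  have hMid : M = A * (a / (x : ℝ) ^ 2) - (A + B) * (a / (y : ℝ) ^ 2) + B * (a / (z : ℝ) ^ 2) := by
    rw [hM, hA, hB]
    field_simp
    ring
  have herr : (N : ℝ) - M = A * ((u : ℝ) - a / (x : ℝ) ^ 2) - (A + B) * ((v : ℝ) - a / (y : ℝ) ^ 2) +
      B * ((w : ℝ) - a / (z : ℝ) ^ 2) := by
    rw [hNr, hMid]
    ring
  have hup : (N : ℝ) - M ≤ (A + B) / k := by
    rw [herr]
    have h1 : A * ((u : ℝ) - a / (x : ℝ) ^ 2) ≤ A * (1 / k) := by gcongr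
    have h2 : B * ((w : ℝ) - a / (z : ℝ) ^ 2) ≤ B * (1 / k) := by gcongr
    have h3 : 0 ≤ (A + B) * ((v : ℝ) - a / (y : ℝ) ^ 2) := mul_nonneg (by linarith) v1
    have h4 : (A + B) / k = A * (1 / k) + B * (1 / k) := by ring
    linarith
  have hlo : -((A + B) / k) ≤ (N : ℝ) - M := by
    rw [herr]
    have h1 : 0 ≤ A * ((u : ℝ) - a / (x : ℝ) ^ 2) := mul_nonneg hA0.le u1
    have h2 : 0 ≤ B * ((w : ℝ) - a / (z : ℝ) ^ 2) := mul_nonneg hB0.le w1
    have h3 : (A + B) * ((v : ℝ) - a / (y : ℝ) ^ 2) ≤ (A + B) * (1 / k) := by gcongr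
    have h4 : (A + B) / k = (A + B) * (1 / k) := by ring
    linarith
  have hpoly0 : 0 < (x : ℝ) * y + y * z + x * z := by positivity
  have hM0 : 0 ≤ M := by rw [hM]; positivity
  have hden : (k : ℝ) ^ 6 ≤ x ^ 2 * y ^ 2 * z ^ 2 := by
    have h1 : (k : ℝ) ^ 6 = k ^ 2 * k ^ 2 * k ^ 2 := by ring
    rw [h1]
    gcongr <;> linarith
  have hMup : M ≤ 3 * (a : ℝ) * H ^ 3 / k ^ 4 := by
    have h1 : (x : ℝ) * y + y * z + x * z ≤ 12 * k ^ 2 := by nlinarith
    have h2 : A * B * (A + B) ≤ H ^ 3 / 4 := by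
      have h3 : A * B ≤ (A + B) ^ 2 / 4 := by nlinarith [sq_nonneg (A - B)]
      have h4 : A * B * (A + B) ≤ (A + B) ^ 2 / 4 * (A + B) := by gcongr
      have h5 : (A + B) ^ 2 / 4 * (A + B) = (A + B) ^ 3 / 4 := by ring
      have h6 : (A + B) ^ 3 ≤ (H : ℝ) ^ 3 := by gcongr
      linarith
    rw [hM]
    calc a * (A * B * (A + B)) * (x * y + y * z + x * z) / ((x : ℝ) ^ 2 * y ^ 2 * z ^ 2)
        ≤ a * (H ^ 3 / 4) * (12 * k ^ 2) / (k : ℝ) ^ 6 := by gcongr
      _ = 3 * (a : ℝ) * H ^ 3 / k ^ 4 := by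
        field_simp
        ring
  have hABk : (A + B) / k ≤ H / k := by gcongr
  have hNlt : (N : ℝ) < 1 := by linarith
  have hNgt : (-1 : ℝ) < N := by
    have h1 : 0 ≤ 3 * (a : ℝ) * H ^ 3 / k ^ 4 := by positivity
    linarith
  have hN0 : N = 0 := by
    have h1 : N < 1 := by exact_mod_cast hNlt
    have h2 : -1 < N := by exact_mod_cast hNgt
    omega
  rw [hN0, Int.cast_zero] at hlo
  have hMle : M ≤ (A + B) / k := by linarith
  have hnum : 3 * (k : ℝ) ^ 2 ≤ x * y + y * z + x * z := by nlinarith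
  have hden2 : (x : ℝ) ^ 2 * y ^ 2 * z ^ 2 ≤ 64 * k ^ 6 := by
    have h1 : (64 : ℝ) * k ^ 6 = (2 * k) ^ 2 * (2 * k) ^ 2 * (2 * k) ^ 2 := by ring
    rw [h1]
    gcongr <;> linarith
  have hMlow : a * (A * B * (A + B)) * (3 * k ^ 2) / (64 * (k : ℝ) ^ 6) ≤ M := by
    rw [hM]
    gcongr
  have h1 := hMlow.trans hMle
  rw [div_le_div_iff₀ (by positivity) hk0] at h1
  have h2 : (a * (A * B * (A + B)) * (3 * (k : ℝ) ^ 2)) * k = (B * A * (3 * a)) * ((A + B) * k ^ 3) := by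
    ring
  have h3 : (A + B) * (64 * (k : ℝ) ^ 6) = (64 * k ^ 3) * ((A + B) * k ^ 3) := by ring
  rw [h2, h3] at h1
  have h4 := le_of_mul_le_mul_right h1 (by positivity)
  rw [hA, hB] at h4
  exact h4

/-- the number of points -/
theorem sq_count (k a H r : ℕ) (hk : 0 < k) (hH : 1 ≤ H) (S : Finset ℕ)
    (hS : ∀ x ∈ S, (k < x ∧ x < 2 * k) ∧ ∃ t : ℕ, a < x ^ 2 * t ∧ x ^ 2 * t ≤ a + k)
    (hsmall : 3 * (a : ℝ) * H ^ 3 / k ^ 4 + H / k < 1)
    (hr : 64 * (k : ℝ) ^ 3 < (r : ℝ) * r * (3 * a)) :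
    S.card ≤ 2 * r * (k / H + 2) := by
  classical
  have hr1 : 1 ≤ r := by
    by_contra h
    have h1 : r = 0 := by omega
    rw [h1] at hr
    have h2 : (0 : ℝ) < k := by exact_mod_cast hk
    have h3 : (0 : ℝ) < 64 * (k : ℝ) ^ 3 := by positivity
    simp at hr
    linarith
  have h1 := card_le_mul_card_image (f := fun x => x / H) S (2 * r) (fun j _ => ?_)
  · refine h1.trans (Nat.mul_le_mul_left _ ?_)
    have h2 : S.image (fun x => x / H) ⊆ Icc (k / H) (2 * k / H) := by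
      intro j hj
      rw [mem_image] at hj
      obtain ⟨x, hx, rfl⟩ := hj
      have h3 := (hS x hx).1
      rw [mem_Icc]
      exact ⟨Nat.div_le_div_right h3.1.le, Nat.div_le_div_right h3.2.le⟩
    refine (card_le_card h2).trans ?_
    rw [Nat.card_Icc]
    have h3 : 2 * k / H < 2 * (k / H) + 2 := by
      rw [Nat.div_lt_iff_lt_mul (by omega)]
      have h4 := Nat.div_add_mod k H
      have h5 := Nat.mod_lt k (show 0 < H by omega)
      have h6 : (2 * (k / H) + 2) * H = 2 * (H * (k / H)) + 2 * H := by ring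
      omega
    omega
  · -- a block
    obtain ⟨F, hF⟩ : ∃ F : Finset ℕ, F = S.filter (fun x => x / H = j) := ⟨_, rfl⟩
    rw [← hF]
    rcases F.eq_empty_or_nonempty with h0 | h0
    · rw [h0, card_empty]
      omega
    · obtain ⟨x0, hx0⟩ : ∃ x0, x0 = F.min' h0 := ⟨_, rfl⟩
      obtain ⟨z0, hz0⟩ : ∃ z0, z0 = F.max' h0 := ⟨_, rfl⟩
      have hxF : x0 ∈ F := by rw [hx0]; exact F.min'_mem h0
      have hzF : z0 ∈ F := by rw [hz0]; exact F.max'_mem h0
      have hmemF : ∀ y ∈ F, y ∈ S ∧ y / H = j := fun y hy => by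
        rw [hF, mem_filter] at hy
        exact hy
      have hsub : F ⊆ Ico x0 (x0 + r) ∪ Ioc (z0 - r) z0 := by
        intro y hy
        have h2 : x0 ≤ y := by rw [hx0]; exact F.min'_le y hy
        have h3 : y ≤ z0 := by rw [hz0]; exact F.le_max' y hy
        rw [mem_union, mem_Ico, mem_Ioc]
        by_contra hcon
        push Not at hcon
        obtain ⟨c1, c2⟩ := hcon
        have h4 := c1 h2
        have h5 : y ≤ z0 - r := by
          by_contra h6
          have := c2 (by omega)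
          omega
        obtain ⟨hxS, hxj⟩ := hmemF x0 hxF
        obtain ⟨hyS, hyj⟩ := hmemF y hy
        obtain ⟨hzS, hzj⟩ := hmemF z0 hzF
        obtain ⟨⟨hx1, hx2⟩, u, hu⟩ := hS x0 hxS
        obtain ⟨⟨hy1, hy2⟩, v, hv⟩ := hS y hyS
        obtain ⟨⟨hz1, hz2⟩, w, hw⟩ := hS z0 hzS
        have hzx : z0 - x0 ≤ H := by
          have h6 := Nat.div_add_mod z0 H
          have h7 := Nat.mod_lt z0 (show 0 < H by omega)
          have h8 := Nat.div_mul_le_self x0 H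
          rw [hzj] at h6
          rw [hxj] at h8
          have h9 : j * H = H * j := Nat.mul_comm _ _
          omega
        have h6 := three k a H x0 y z0 u v w hk hx1 (by omega) (by omega) hz2 hzx hu hv hw hsmall
        have h7 : (r : ℝ) ≤ (y : ℝ) - x0 := by
          have h8 : x0 + r ≤ y := h4
          have h9 : (x0 : ℝ) + r ≤ y := by exact_mod_cast h8
          linarith
        have h8 : (r : ℝ) ≤ (z0 : ℝ) - y := by
          have h9 : y + r ≤ z0 := by omega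
          have h10 : (y : ℝ) + r ≤ z0 := by exact_mod_cast h9
          linarith
        have h9 : (r : ℝ) * r * (3 * a) ≤ ((y : ℝ) - x0) * ((z0 : ℝ) - y) * (3 * a) := by
          have ha0 : (0 : ℝ) ≤ 3 * a := by positivity
          have hr0 : (0 : ℝ) ≤ r := Nat.cast_nonneg _
          exact mul_le_mul_of_nonneg_right (mul_le_mul h7 h8 hr0 (by linarith)) ha0
        linarith
      refine (card_le_card hsub).trans ((card_union_le _ _).trans ?_)
      rw [Nat.card_Ico, Nat.card_Ioc]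
      omega

end Pool.Agent.Y371.NK
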